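import Pool.Agent.H219.Wh.Key

/-!
# The Dennis trace modulo `p ^ i`
-/

set_option autoImplicit false
set_option linter.unusedSectionVars false

namespace H219.Wh

open Finset Pool.Agent.H23R2
open scoped Classical

section roots

variable {Γ : Type*} [Group Γ] {p : ℕ}

lemma root_iter (hroot : ∀ x y : Γ, x ^ p = y ^ p → x = y) (k : ℕ) :
    ∀ x y : Γ, x ^ (p ^ k) = y ^ (p ^ k) → x = y := by
  induction k with
  | zero => intro x y h; simpa using h
  | succ k ih =>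
    intro x y h
    rw [pow_succ, pow_mul, pow_mul] at h
    exact ih _ _ (hroot _ _ h)

lemma conj_pow_conj {g w : Γ} (h : IsConj g w) (n : ℕ) : IsConj (g ^ n) (w ^ n) := by
  obtain ⟨c, hc⟩ := isConj_iff.1 h
  rw [isConj_iff]
  exact ⟨c, by rw [← hc, conj_pow]⟩

/-- an element with a conjugate which is a `p ^ c`-th power root of itself is infinitely
divisible -/
lemma no_selfpow (hdiv : ∀ g : Γ, g ≠ 1 → ∃ k : ℕ, ∀ x, x ^ (p ^ k) ≠ g) {g : Γ} (hg : g ≠ 1) {c : ℕ}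
    (hc : c ≠ 0) (h : IsConj g (g ^ (p ^ c))) : False := by
  obtain ⟨y, hy⟩ := isConj_iff.1 h
  -- y * g * y⁻¹ = g ^ (p ^ c); so g = (y⁻¹ g y) ^ (p ^ c)
  have key : ∀ m : ℕ, ∃ x : Γ, IsConj g x ∧ x ^ (p ^ (c * m)) = g := by
    intro m
    induction m with
    | zero => exact ⟨g, IsConj.refl g, by simp⟩
    | succ m ih =>
      obtain ⟨x, hx, hxg⟩ := ih
      obtain ⟨z, hz⟩ := isConj_iff.1 hx
      -- x = z g z⁻¹; and g = (y⁻¹ g y)^(p^c)
      refine ⟨z * (y⁻¹ * g * y) * z⁻¹, ?_, ?_⟩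
      · rw [isConj_iff]
        exact ⟨z * y⁻¹, by group⟩
      · have h1 : (y⁻¹ * g * y) ^ (p ^ c) = g := by
          have : y⁻¹ * g * y = y⁻¹ * g * (y⁻¹)⁻¹ := by group
          rw [this, conj_pow, ← hy]
          group
        rw [Nat.mul_succ, Nat.add_comm, pow_add, pow_mul, conj_pow, h1, hz, hxg]
  obtain ⟨k, hk⟩ := hdiv g hg
  obtain ⟨x, _, hx⟩ := key k
  have hle : k ≤ c * k := Nat.le_mul_of_pos_left k (Nat.pos_of_ne_zero hc)
  apply hk (x ^ (p ^ (c * k - k)))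
  rw [← pow_mul, ← pow_add, Nat.sub_add_cancel hle, hx]

lemma pow_class_inj (hroot : ∀ x y : Γ, x ^ p = y ^ p → x = y)
    (hdiv : ∀ g : Γ, g ≠ 1 → ∃ k : ℕ, ∀ x, x ^ (p ^ k) ≠ g) {g : Γ} (hg : g ≠ 1) {a b : ℕ}
    {w w' : Γ} (hw : IsConj g w) (hw' : IsConj g w') (h : w ^ (p ^ a) = w' ^ (p ^ b)) :
    a = b := by
  have main : ∀ (a b : ℕ) (w w' : Γ), IsConj g w → IsConj g w' → a < b →
      w ^ (p ^ a) = w' ^ (p ^ b) → False := by
    intro a b w w' hw hw' hab h
    have h1 : w' ^ (p ^ b) = (w' ^ (p ^ (b - a))) ^ (p ^ a) := by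
      rw [← pow_mul, ← pow_add, Nat.sub_add_cancel hab.le]
    rw [h1] at h
    have h2 := root_iter hroot a _ _ h
    have h3 : IsConj g (g ^ (p ^ (b - a))) := by
      refine hw.trans ?_
      rw [h2]
      exact (conj_pow_conj hw' _).symm
    exact no_selfpow hdiv hg (by omega) h3
  rcases Nat.lt_trichotomy a b with h1 | h1 | h1
  · exact (main a b w w' hw hw' h1 h).elim
  · exact h1
  · exact (main b a w' w hw' hw h1 h.symm).elim

end roots

section coc

variable {Γ : Type*} [Group Γ] {M : Type*} [AddCommGroup M] {p : ℕ}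

lemma coc_conj {F : Γ → Γ → M} (hF : IsCoc F) {g w : Γ} (h : IsConj g w) : F w w = F g g := by
  obtain ⟨c, hc⟩ := isConj_iff.1 h
  -- w = c g c⁻¹ = x⁻¹ g x with x = c⁻¹
  have h1 := hF g c⁻¹ w
  have h2 := hF g g c⁻¹
  have e1 : (c⁻¹)⁻¹ * g * c⁻¹ = w := by rw [← hc]; group
  have e2 : g⁻¹ * g * g = g := by group
  have e3 : c⁻¹ * w = g * c⁻¹ := by rw [← hc]; group
  rw [e1, e3] at h1
  rw [e2] at h2
  rw [h2] at h1
  -- F g g + F g c⁻¹ = F g c⁻¹ + F w w
  have h3 : F g c⁻¹ + F w w = F g c⁻¹ + F g g := by rw [← h1]; abel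
  exact add_left_cancel h3

/-- the cocycle `F`, restricted to the class of `g` and transported to the class of
`g ^ (p ^ k)` -/
noncomputable def Fk (p : ℕ) (F : Γ → Γ → M) (g : Γ) (k : ℕ) : Γ → Γ → M := fun w' x =>
  if h : ∃ w, IsConj g w ∧ w ^ (p ^ k) = w' then F h.choose x else 0

lemma Fk_pos (hroot : ∀ x y : Γ, x ^ p = y ^ p → x = y) (F : Γ → Γ → M) (g : Γ) (k : ℕ)
    {w : Γ} (hw : IsConj g w) (x : Γ) : Fk p F g k (w ^ (p ^ k)) x = F w x := by
  have h : ∃ v, IsConj g v ∧ v ^ (p ^ k) = w ^ (p ^ k) := ⟨w, hw, rfl⟩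
  unfold Fk
  rw [dif_pos h, root_iter hroot k _ _ h.choose_spec.2]

lemma Fk_neg (F : Γ → Γ → M) (g : Γ) (k : ℕ) {w' : Γ}
    (h : ¬ ∃ w, IsConj g w ∧ w ^ (p ^ k) = w') (x : Γ) : Fk p F g k w' x = 0 := by
  unfold Fk
  rw [dif_neg h]

lemma Fk_coc (hroot : ∀ x y : Γ, x ^ p = y ^ p → x = y) {F : Γ → Γ → M} (hF : IsCoc F)
    (g : Γ) (k : ℕ) : IsCoc (Fk p F g k) := by
  intro w' x y
  by_cases h : ∃ w, IsConj g w ∧ w ^ (p ^ k) = w'
  · obtain ⟨w, hw, rfl⟩ := h
    have e : x⁻¹ * w ^ (p ^ k) * x = (x⁻¹ * w * x) ^ (p ^ k) := by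
      have := conj_pow (i := p ^ k) (a := x⁻¹) (b := w)
      rw [inv_inv] at this
      exact this.symm
    have hc : IsConj g (x⁻¹ * w * x) := hw.trans (isConj_iff.2 ⟨x⁻¹, by group⟩)
    rw [e, Fk_pos hroot F g k hw, Fk_pos hroot F g k hw, Fk_pos hroot F g k hc]
    exact hF w x y
  · have h' : ¬ ∃ w, IsConj g w ∧ w ^ (p ^ k) = x⁻¹ * w' * x := by
      rintro ⟨w, hw, hw'⟩
      apply h
      refine ⟨x * w * x⁻¹, hw.trans (isConj_iff.2 ⟨x, rfl⟩), ?_⟩
      rw [conj_pow, hw']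
      group
    rw [Fk_neg F g k h, Fk_neg F g k h, Fk_neg F g k h', add_zero]

lemma Fk_pow (hroot : ∀ x y : Γ, x ^ p = y ^ p → x = y) (F : Γ → Γ → M) (g : Γ) (k : ℕ)
    (w' x : Γ) : Fk p F g (k + 1) (w' ^ p) x = Fk p F g k w' x := by
  by_cases h : ∃ w, IsConj g w ∧ w ^ (p ^ k) = w'
  · obtain ⟨w, hw, rfl⟩ := h
    rw [← pow_mul, ← pow_succ, Fk_pos hroot F g _ hw, Fk_pos hroot F g _ hw]
  · rw [Fk_neg F g k h, Fk_neg]
    rintro ⟨w, hw, hw'⟩
    apply h
    refine ⟨w, hw, ?_⟩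
    rw [pow_succ, pow_mul] at hw'
    exact hroot _ _ hw'

lemma Fk_diag (hroot : ∀ x y : Γ, x ^ p = y ^ p → x = y) {F : Γ → Γ → M} (hF : IsCoc F)
    (g : Γ) (k : ℕ) (w : Γ) :
    Fk p F g (k + 1) w w ∈ AddSubgroup.zmultiples (p • F g g) := by
  by_cases h : ∃ v, IsConj g v ∧ v ^ (p ^ (k + 1)) = w
  · obtain ⟨v, hv, rfl⟩ := h
    rw [Fk_pos hroot F g _ hv, hF.pow, coc_conj hF hv, pow_succ, mul_smul]
    exact AddSubgroup.nsmul_mem _ (AddSubgroup.mem_zmultiples _) _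
  · rw [Fk_neg F g _ h]
    exact AddSubgroup.zero_mem _

end coc

section main

variable {I S : Type*} [Fintype I] [Fintype S] {Γ : Type*} [Group Γ] {gr : S → Γ}
  {A B : I → I → S → ℤ} {p i : ℕ} [hp : Fact p.Prime] {M : Type*} [AddCommGroup M]

lemma map_Dsum {M' : Type*} [AddCommGroup M'] (q : M →+ M') (F : Γ → Γ → M) :
    q (Dsum gr A B F) = Dsum gr A B (fun w x => q (F w x)) := by
  unfold Dsum
  rw [map_sum]
  apply Finset.sum_congr rfl
  intro y _
  rw [map_zsmul]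

/-- the contribution of a nontrivial conjugacy class -/
lemma chain (h : IP gr A B) (hA : ∀ i j a, A i j a ^ p = A i j a)
    (hB : ∀ i j a, B i j a ^ p = B i j a)
    (hroot : ∀ x y : Γ, x ^ p = y ^ p → x = y)
    (hdiv : ∀ g : Γ, g ≠ 1 → ∃ k : ℕ, ∀ x, x ^ (p ^ k) ≠ g)
    (hM : ∀ x : M, (p ^ (i + 1)) • x = 0) {F : Γ → Γ → M} (hF : IsCoc F) {g : Γ} (hg : g ≠ 1) :
    Dsum gr A B (Fk p F g 0) ∈ AddSubgroup.zmultiples (p • F g g) := by
  set Z := AddSubgroup.zmultiples (p • F g g) with hZ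
  let q : M →+ M ⧸ Z := QuotientAddGroup.mk' Z
  have hM' : ∀ x : M ⧸ Z, (p ^ (i + 1)) • x = 0 := by
    intro x
    obtain ⟨x, rfl⟩ := QuotientAddGroup.mk'_surjective Z x
    rw [← map_nsmul, hM, map_zero]
  have step : ∀ k : ℕ, q (Dsum gr A B (Fk p F g k)) = q (Dsum gr A B (Fk p F g (k + 1))) := by
    intro k
    rw [map_Dsum, map_Dsum]
    have hc : IsCoc (fun w x => q (Fk p F g (k + 1) w x)) := by
      intro w x y
      show q _ = q _ + q _
      rw [Fk_coc hroot hF g (k + 1) w x y, map_add]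
    have h1 := frobenius_relation h hA hB hM' hc (by
      intro w
      exact (QuotientAddGroup.eq_zero_iff _).2 (Fk_diag hroot hF g k w))
    rw [h1]
    simp only [Fk_pow hroot]
  have all : ∀ k : ℕ, q (Dsum gr A B (Fk p F g 0)) = q (Dsum gr A B (Fk p F g k)) := by
    intro k
    induction k with
    | zero => rfl
    | succ k ih => rw [ih, step]
  -- a large `k` kills the sum
  have hfin : {k : ℕ | ∃ y : Yy I S, ∃ w, IsConj g w ∧
      w ^ (p ^ k) = gr y.2.2.1 * gr y.2.2.2}.Finite := by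
    have h1 : {k : ℕ | ∃ y : Yy I S, ∃ w, IsConj g w ∧
        w ^ (p ^ k) = gr y.2.2.1 * gr y.2.2.2} =
        ⋃ y : Yy I S, {k : ℕ | ∃ w, IsConj g w ∧ w ^ (p ^ k) = gr y.2.2.1 * gr y.2.2.2} := by
      ext k; simp
    rw [h1]
    refine Set.finite_iUnion fun y => Set.Subsingleton.finite ?_
    rintro a ⟨w, hw, hwa⟩ b ⟨w', hw', hwb⟩
    exact pow_class_inj hroot hdiv hg hw hw' (hwa.trans hwb.symm)
  obtain ⟨K, hK⟩ := Infinite.exists_notMem_finset hfin.toFinset
  rw [Set.Finite.mem_toFinset] at hK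
  have h2 : Dsum gr A B (Fk p F g K) = 0 := by
    unfold Dsum
    apply Finset.sum_eq_zero
    intro y _
    rw [Fk_neg, smul_zero]
    rintro ⟨w, hw, hw'⟩
    exact hK ⟨y, w, hw, hw'⟩
  have h3 := all K
  rw [h2, map_zero] at h3
  exact (QuotientAddGroup.eq_zero_iff _).1 h3

/-- the group element attached to a pair of mutually inverse matrices -/
noncomputable def gam (gr : S → Γ) (A B : I → I → S → ℤ) : Γ :=
  (((Finset.univ.filter (fun y : Yy I S => gr y.2.2.1 * gr y.2.2.2 = 1)).toList).map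
    (fun y => gr y.2.2.1 ^ (A y.1 y.2.1 y.2.2.1 * B y.2.1 y.1 y.2.2.2))).prod

lemma coc_gam {F : Γ → Γ → M} (hF : IsCoc F) :
    F 1 (gam gr A B) = ∑ y : Yy I S with gr y.2.2.1 * gr y.2.2.2 = 1,
      (A y.1 y.2.1 y.2.2.1 * B y.2.1 y.1 y.2.2.2) • F 1 (gr y.2.2.1) := by
  let φ : Γ →* Multiplicative M :=
    { toFun := fun x => Multiplicative.ofAdd (F 1 x)
      map_one' := by rw [hF.one]; rfl
      map_mul' := by
        intro x y
        rw [hF 1 x y]
        simp }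
  have h1 : φ (gam gr A B) = Multiplicative.ofAdd (∑ y : Yy I S with gr y.2.2.1 * gr y.2.2.2 = 1,
      (A y.1 y.2.1 y.2.2.1 * B y.2.1 y.1 y.2.2.2) • F 1 (gr y.2.2.1)) := by
    unfold gam
    rw [map_list_prod, List.map_map, Finset.prod_map_toList, ofAdd_sum]
    apply Finset.prod_congr rfl
    intro y _
    simp only [Function.comp]
    rw [map_zpow]
    rfl
  exact Multiplicative.ofAdd.injective h1

/-- **The Dennis trace modulo `p ^ (i+1)`** -/
theorem trace_main (h : IP gr A B) (hA : ∀ i j a, A i j a ^ p = A i j a)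
    (hB : ∀ i j a, B i j a ^ p = B i j a)
    (hroot : ∀ x y : Γ, x ^ p = y ^ p → x = y)
    (hdiv : ∀ g : Γ, g ≠ 1 → ∃ k : ℕ, ∀ x, x ^ (p ^ k) ≠ g)
    (hM : ∀ x : M, (p ^ (i + 1)) • x = 0) {F : Γ → Γ → M} (hF : IsCoc F) :
    ∃ m ∈ AddSubgroup.closure (Set.range fun g => F g g),
      Dsum gr A B F = F 1 (gam gr A B) + p • m := by
  let cl : Yy I S → ConjClasses Γ := fun y => ConjClasses.mk (gr y.2.2.1 * gr y.2.2.2)
  set cls : Finset (ConjClasses Γ) := Finset.univ.image cl with hcls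
  have hrep : ∀ C : ConjClasses Γ, ConjClasses.mk (Quotient.out C) = C := fun C =>
    Quotient.out_eq C
  -- decomposition
  have h1 : Dsum gr A B F = ∑ C ∈ cls, Dsum gr A B (Fk p F (Quotient.out C) 0) := by
    unfold Dsum
    rw [Finset.sum_comm]
    apply Finset.sum_congr rfl
    intro y _
    rw [← Finset.smul_sum]
    congr 1
    rw [Finset.sum_eq_single (cl y)]
    · have hc : IsConj (Quotient.out (cl y)) (gr y.2.2.1 * gr y.2.2.2) :=
        ConjClasses.mk_eq_mk_iff_isConj.1 (hrep (cl y))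
      have := Fk_pos hroot F (Quotient.out (cl y)) 0 hc (gr y.2.2.1)
      rw [pow_zero, pow_one] at this
      exact this.symm
    · intro C _ hC
      apply Fk_neg
      rintro ⟨w, hw, hw'⟩
      rw [pow_zero, pow_one] at hw'
      subst hw'
      apply hC
      rw [← hrep C]
      exact ConjClasses.mk_eq_mk_iff_isConj.2 hw
    · intro hh
      exact absurd (Finset.mem_image_of_mem cl (Finset.mem_univ y)) hh
  have h2 : ∀ C : ConjClasses Γ, C ≠ ConjClasses.mk 1 →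
      ∃ m ∈ AddSubgroup.closure (Set.range fun g => F g g),
        Dsum gr A B (Fk p F (Quotient.out C) 0) = p • m := by
    intro C hC
    have hg : (Quotient.out C : Γ) ≠ 1 := by
      intro h3
      apply hC
      rw [← hrep C, h3]
    have h3 := chain h hA hB hroot hdiv hM hF hg
    rw [AddSubgroup.mem_zmultiples_iff] at h3
    obtain ⟨k, hk⟩ := h3
    refine ⟨k • F (Quotient.out C) (Quotient.out C), AddSubgroup.zsmul_mem _
      (AddSubgroup.subset_closure (Set.mem_range_self _)) _, ?_⟩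
    rw [← hk, smul_comm]
  choose! m hm hm' using h2
  have h3 : Dsum gr A B (Fk p F (Quotient.out (ConjClasses.mk (1 : Γ))) 0) =
      F 1 (gam gr A B) := by
    have h4 : (Quotient.out (ConjClasses.mk (1 : Γ)) : Γ) = 1 := by
      have := ConjClasses.mk_eq_mk_iff_isConj.1 (hrep (ConjClasses.mk (1 : Γ)))
      rwa [isConj_one_left] at this
    rw [h4, coc_gam hF]
    unfold Dsum
    rw [Finset.sum_filter]
    apply Finset.sum_congr rfl
    intro y _
    by_cases hy : gr y.2.2.1 * gr y.2.2.2 = 1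
    · rw [if_pos hy, hy]
      congr 1
      have := Fk_pos hroot F 1 0 (IsConj.refl 1) (gr y.2.2.1)
      rwa [pow_zero, pow_one] at this
    · rw [if_neg hy, Fk_neg, smul_zero]
      rintro ⟨w, hw, hw'⟩
      rw [isConj_one_right] at hw
      apply hy
      rw [← hw', hw, one_pow]
  by_cases h1m : ConjClasses.mk (1 : Γ) ∈ cls
  · refine ⟨∑ C ∈ cls.erase (ConjClasses.mk 1), m C, ?_, ?_⟩
    · exact AddSubgroup.sum_mem _ fun C hC => hm C (Finset.ne_of_mem_erase hC)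
    · rw [h1, ← Finset.add_sum_erase _ _ h1m, h3, Finset.smul_sum]
      congr 1
      exact Finset.sum_congr rfl fun C hC => hm' C (Finset.ne_of_mem_erase hC)
  · refine ⟨∑ C ∈ cls, m C, ?_, ?_⟩
    · exact AddSubgroup.sum_mem _ fun C hC => hm C (fun hh => h1m (hh ▸ hC))
    · have h5 : F 1 (gam gr A B) = 0 := by
        rw [coc_gam hF]
        apply Finset.sum_eq_zero
        intro y hy
        exfalso
        apply h1m
        rw [hcls, Finset.mem_image]
        exact ⟨y, Finset.mem_univ _, by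
          show ConjClasses.mk _ = _
          rw [(Finset.mem_filter.1 hy).2]⟩
      rw [h1, h5, zero_add, Finset.smul_sum]
      exact Finset.sum_congr rfl fun C hC => hm' C (fun hh => h1m (hh ▸ hC))

end main

end H219.Wh
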