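import Mathlib

/-!
# Derivations of group algebras of abelian groups given by additive characters, and the
logarithmic derivative modulo `p ^ I`
-/

set_option autoImplicit false
set_option linter.unusedSectionVars false

namespace H219.Wh

open Finset

variable {S : Type*} [CommRing S] {Q : Type*} [CommGroup Q]

/-- the additive map `s q ↦ μ(q) s q` -/
noncomputable def dAdd (μ : Q →* Multiplicative S) : MonoidAlgebra S Q →+ MonoidAlgebra S Q where
  toFun x := x.coeff.sum fun q c => MonoidAlgebra.single q ((μ q).toAdd * c)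
  map_zero' := by simp
  map_add' x y := by
    rw [MonoidAlgebra.coeff_add]
    exact Finsupp.sum_add_index' (by intro q; simp)
      (by intro q a b; rw [mul_add, MonoidAlgebra.single_add])

lemma dAdd_single (μ : Q →* Multiplicative S) (q : Q) (c : S) :
    dAdd μ (MonoidAlgebra.single q c) = MonoidAlgebra.single q ((μ q).toAdd * c) := by
  show (MonoidAlgebra.single q c).coeff.sum
    (fun q c => MonoidAlgebra.single q ((μ q).toAdd * c)) = _
  rw [MonoidAlgebra.coeff_single]
  exact Finsupp.sum_single_index (by simp)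

lemma dAdd_coeff (μ : Q →* Multiplicative S) (x : MonoidAlgebra S Q) (q : Q) :
    (dAdd μ x).coeff q = (μ q).toAdd * x.coeff q := by
  classical
  induction x using MonoidAlgebra.induction_linear with
  | zero => simp
  | add x y hx hy => rw [map_add, MonoidAlgebra.coeff_add, Finsupp.add_apply, hx, hy,
      MonoidAlgebra.coeff_add, Finsupp.add_apply, mul_add]
  | single a c =>
    rw [dAdd_single, MonoidAlgebra.coeff_single, MonoidAlgebra.coeff_single,
      Finsupp.single_apply, Finsupp.single_apply]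
    split_ifs with h
    · rw [h]
    · rw [mul_zero]

lemma dAdd_mul (μ : Q →* Multiplicative S) (x y : MonoidAlgebra S Q) :
    dAdd μ (x * y) = x * dAdd μ y + y * dAdd μ x := by
  induction x using MonoidAlgebra.induction_linear with
  | zero => simp
  | add x x' hx hx' => rw [add_mul, map_add, map_add, hx, hx']; ring
  | single a c =>
    induction y using MonoidAlgebra.induction_linear with
    | zero => simp
    | add y y' hy hy' => rw [mul_add, map_add, map_add, hy, hy']; ring
    | single b e =>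
      rw [MonoidAlgebra.single_mul_single, dAdd_single, dAdd_single, dAdd_single,
        MonoidAlgebra.single_mul_single, MonoidAlgebra.single_mul_single, mul_comm b a,
        ← MonoidAlgebra.single_add, map_mul, toAdd_mul]
      congr 1
      ring

/-- the derivation `s q ↦ μ(q) s q` -/
noncomputable def DM (μ : Q →* Multiplicative S) :
    Derivation ℤ (MonoidAlgebra S Q) (MonoidAlgebra S Q) :=
  Derivation.mk' (dAdd μ).toIntLinearMap (by
    intro a b
    exact dAdd_mul μ a b)

lemma DM_apply (μ : Q →* Multiplicative S) (x : MonoidAlgebra S Q) : DM μ x = dAdd μ x := rfl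

lemma DM_coeff (μ : Q →* Multiplicative S) (x : MonoidAlgebra S Q) (q : Q) :
    (DM μ x).coeff q = (μ q).toAdd * x.coeff q := dAdd_coeff μ x q

/-- the arithmetic input: `p ^ (s(t+2))` is `p ^ (s+1) * c * (t+2)` modulo `p ^ I` -/
lemma num {p : ℕ} (hp : p.Prime) (hp2 : p ≠ 2) (I s t : ℕ) (hs : 1 ≤ s) :
    ∃ c : ℕ, p ^ (s + 1) * c * (t + 2) ≡ p ^ (s * (t + 2)) [MOD p ^ I] := by
  obtain ⟨a, b, hb, hab⟩ := Nat.exists_eq_pow_mul_and_not_dvd (n := t + 2) (by omega) p hp.ne_one
  have hcop : Nat.Coprime b (p ^ I) := ((Nat.Prime.coprime_iff_not_dvd hp).2 hb).symm.pow_right _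
  have hp3 : 3 ≤ p := by
    have := hp.two_le
    omega
  have hb0 : 0 < b := Nat.pos_of_ne_zero (by rintro rfl; exact hb (dvd_zero p))
  have ha : a ≤ t := by
    have h1 : 3 ^ a ≤ t + 2 := by
      calc 3 ^ a ≤ p ^ a := Nat.pow_le_pow_left hp3 a
        _ ≤ p ^ a * b := Nat.le_mul_of_pos_right _ hb0
        _ = t + 2 := hab.symm
    have h2 : ∀ a : ℕ, 1 ≤ a → a + 2 ≤ 3 ^ a := by
      intro a ha
      induction a, ha using Nat.le_induction with
      | base => norm_num
      | succ a _ ih => rw [pow_succ]; omega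
    rcases Nat.eq_zero_or_pos a with h | h
    · omega
    · have := h2 a h
      omega
  have hexp : s + 1 + a ≤ s * (t + 2) := by
    have h1 : s * (t + 2) = s * (t + 1) + s := by ring
    have h2 : t + 1 ≤ s * (t + 1) := Nat.le_mul_of_pos_left _ hs
    omega
  obtain ⟨b', hb'⟩ : ∃ b' : ℕ, b * b' ≡ 1 [MOD p ^ I] := by
    rcases Nat.lt_or_ge 1 (p ^ I) with h | h
    · obtain ⟨b', _, hb'⟩ := Nat.exists_mul_mod_eq_one_of_coprime hcop h
      exact ⟨b', by rw [Nat.ModEq, hb', Nat.mod_eq_of_lt h]⟩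
    · have h1 : p ^ I = 1 := le_antisymm h (Nat.one_le_pow _ _ hp.pos)
      exact ⟨0, by rw [h1]; exact Nat.modEq_one⟩
  obtain ⟨e, he⟩ := Nat.exists_eq_add_of_le hexp
  refine ⟨p ^ e * b', ?_⟩
  have h1 : p ^ (s + 1) * (p ^ e * b') * (t + 2) =
      p ^ (s * (t + 2)) * (b * b') := by
    have h2 : p ^ (s * (t + 2)) = p ^ (s + 1) * p ^ e * p ^ a := by
      rw [he, ← pow_add, ← pow_add]
      congr 1
      omega
    rw [h2]
    calc p ^ (s + 1) * (p ^ e * b') * (t + 2) = p ^ (s + 1) * (p ^ e * b') * (p ^ a * b) := by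
          rw [hab]
      _ = _ := by ring
  rw [h1]
  simpa using (Nat.ModEq.refl (p ^ (s * (t + 2)))).mul hb'

lemma num' {p : ℕ} (hp : p.Prime) (hp2 : p ≠ 2) (I s t : ℕ) (hs : 1 ≤ s) {R : Type*} [CommRing R]
    (hR : ((p ^ I : ℕ) : R) = 0) :
    ∃ c : ℕ, (p : R) ^ (s + 1) * c * ((t + 2 : ℕ) : R) = (p : R) ^ (s * (t + 2)) := by
  obtain ⟨c, hc⟩ := num hp hp2 I s t hs
  refine ⟨c, ?_⟩
  have h1 : ((p ^ (s + 1) * c * (t + 2) : ℕ) : R) = ((p ^ (s * (t + 2)) : ℕ) : R) := by
    rw [Nat.modEq_iff_dvd] at hc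
    obtain ⟨e, he⟩ := hc
    have h2 : ((p ^ (s * (t + 2)) : ℕ) : ℤ) = ((p ^ (s + 1) * c * (t + 2) : ℕ) : ℤ) +
        ((p ^ I : ℕ) : ℤ) * e := by linarith
    have h3 := congrArg (Int.cast : ℤ → R) h2
    push_cast at h3 hR
    push_cast
    rw [h3, hR]
    ring
  push_cast at h1 ⊢
  exact h1

/-- **Integration of logarithmic derivatives**: if `dlog u` is divisible by `p` then
`u (1 + p z)` is closed for some `z`. -/
theorem integrate {p : ℕ} (hp : p.Prime) (hp2 : p ≠ 2) (I : ℕ) {R : Type*} [CommRing R]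
    (hR : ((p ^ I : ℕ) : R) = 0) {Λ : Type*} (D : Λ → Derivation ℤ R R) :
    ∀ (k s : ℕ), 1 ≤ s → I ≤ s + k → ∀ u y : R, (∀ μ, D μ u = (p : R) ^ s * (u * D μ y)) →
      ∃ z : R, ∀ μ, D μ (u * (1 + (p : R) * z)) = 0 := by
  have hz : ∀ s : ℕ, I ≤ s → (p : R) ^ s = 0 := by
    intro s hs
    obtain ⟨j, rfl⟩ := Nat.exists_eq_add_of_le hs
    rw [pow_add, ← Nat.cast_pow, hR, zero_mul]
  intro k
  induction k with
  | zero =>
    intro s _ hI u y h
    refine ⟨0, fun μ => ?_⟩
    rw [mul_zero, add_zero, mul_one, h, hz s (by omega), zero_mul]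
  | succ k ih =>
    intro s hs hI u y h
    -- the next approximation
    choose c hc using fun t : ℕ => num' hp hp2 I s t hs hR
    set x : R := (p : R) ^ s * y with hx
    set u1 : R := u * (1 - x) with hu1
    set y1 : R := - ∑ t ∈ range I, (c t : R) * y ^ (t + 2) with hy1
    have hxI : x ^ I = 0 := by
      rw [hx, mul_pow, ← pow_mul, hz (s * I) (Nat.le_mul_of_pos_left _ hs), zero_mul]
    have hgeom : u = u1 * ∑ t ∈ range I, x ^ t := by
      rw [hu1, mul_assoc, mul_comm (1 - x), geom_sum_mul_neg, hxI, sub_zero, mul_one]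
    have hD1 : ∀ μ, D μ ((p : R) ^ s) = 0 := by
      intro μ
      rw [← Nat.cast_pow]
      exact (D μ).map_natCast _
    have hu1D : ∀ μ, D μ u1 = (p : R) ^ (s + 1) * (u1 * D μ y1) := by
      intro μ
      have e1 : D μ u1 = - (u * ((p : R) ^ (2 * s) * y * D μ y)) := by
        rw [hu1, Derivation.leibniz, map_sub, Derivation.map_one_eq_zero, hx,
          Derivation.leibniz, hD1, h μ]
        simp only [smul_eq_mul]
        ring
      have e2 : D μ y1 = - ∑ t ∈ range I, (c t : R) * (((t + 2 : ℕ) : R) * (y ^ (t + 1) * D μ y)) := by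
        rw [hy1, map_neg, map_sum]
        congr 1
        apply Finset.sum_congr rfl
        intro t _
        rw [Derivation.leibniz, Derivation.leibniz_pow, (D μ).map_natCast]
        simp only [smul_eq_mul, mul_zero, add_zero, nsmul_eq_mul]
        rw [show t + 2 - 1 = t + 1 by omega]
      have e3 : (p : R) ^ (s + 1) * D μ y1 =
          - ((∑ t ∈ range I, x ^ t) * ((p : R) ^ (2 * s) * y * D μ y)) := by
        rw [e2, mul_neg, Finset.mul_sum, Finset.sum_mul]
        congr 1
        apply Finset.sum_congr rfl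
        intro t _
        have e4 := hc t
        calc (p : R) ^ (s + 1) * ((c t : R) * (((t + 2 : ℕ) : R) * (y ^ (t + 1) * D μ y)))
            = ((p : R) ^ (s + 1) * c t * ((t + 2 : ℕ) : R)) * (y ^ (t + 1) * D μ y) := by ring
          _ = (p : R) ^ (s * (t + 2)) * (y ^ (t + 1) * D μ y) := by rw [e4]
          _ = x ^ t * ((p : R) ^ (2 * s) * y * D μ y) := by
              rw [hx, mul_pow, ← pow_mul]
              ring
      rw [e1]
      conv_lhs => rw [hgeom]
      rw [show (p : R) ^ (s + 1) * (u1 * D μ y1) = u1 * ((p : R) ^ (s + 1) * D μ y1) by ring, e3]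
      ring
    obtain ⟨z1, hz1⟩ := ih (s + 1) (by omega) (by omega) u1 y1 hu1D
    obtain ⟨s', rfl⟩ : ∃ s', s = s' + 1 := ⟨s - 1, by omega⟩
    refine ⟨z1 - (p : R) ^ s' * y - (p : R) ^ (s' + 1) * y * z1, fun μ => ?_⟩
    rw [← hz1 μ, hu1, hx]
    congr 1
    ring

end H219.Wh
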