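import Pool.Agent.H219.Wh.Lett
import Pool.Agent.H219.Wh.Der
import Pool.Agent.H23R2.Der

/-!
# Determinants of representations over group algebras of abelian groups
-/

set_option autoImplicit false
set_option linter.unusedSectionVars false

namespace H219.Wh

open Finset
open Pool.Agent.H23R2 (InvPair IsCoc DsumZ cf supp invPair_units pairing pairing_eq
  isCoc_of_hochschild mem_supp jacobi)

section rep

variable {Γ : Type*} [Group Γ] {R : Type*} [CommRing R] {d n : ℕ}

/-- linear extension of a matrix representation -/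
noncomputable def lin (ρ : Γ →* Matrix (Fin d) (Fin d) R) :
    MonoidAlgebra ℤ Γ →ₐ[ℤ] Matrix (Fin d) (Fin d) R := MonoidAlgebra.lift ℤ _ _ ρ

lemma lin_single (ρ : Γ →* Matrix (Fin d) (Fin d) R) (g : Γ) (a : ℤ) :
    lin ρ (MonoidAlgebra.single g a) = a • ρ g := by
  unfold lin
  rw [MonoidAlgebra.lift_single]

lemma lin_apply (ρ : Γ →* Matrix (Fin d) (Fin d) R) (x : MonoidAlgebra ℤ Γ) (i j : Fin d) :
    lin ρ x i j = x.coeff.sum fun g a => (a : R) * ρ g i j := by
  unfold lin
  rw [MonoidAlgebra.lift_apply, Finsupp.sum, Finsupp.sum, Matrix.sum_apply]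
  apply Finset.sum_congr rfl
  intro g _
  rw [Matrix.smul_apply, zsmul_eq_mul]

/-- the block matrix -/
noncomputable def block (ρ : Γ →* Matrix (Fin d) (Fin d) R)
    (A : Matrix (Fin n) (Fin n) (MonoidAlgebra ℤ Γ)) :
    Matrix (Fin n × Fin d) (Fin n × Fin d) R :=
  Matrix.of fun x y => lin ρ (A x.1 y.1) x.2 y.2

lemma block_mul (ρ : Γ →* Matrix (Fin d) (Fin d) R)
    (A B : Matrix (Fin n) (Fin n) (MonoidAlgebra ℤ Γ)) :
    block ρ (A * B) = block ρ A * block ρ B := by
  ext x y
  simp only [block, Matrix.of_apply, Matrix.mul_apply, map_sum, map_mul, Matrix.sum_apply]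
  rw [Fintype.sum_prod_type]

lemma block_one (ρ : Γ →* Matrix (Fin d) (Fin d) R) :
    block ρ (1 : Matrix (Fin n) (Fin n) (MonoidAlgebra ℤ Γ)) = 1 := by
  ext x y
  simp only [block, Matrix.of_apply]
  by_cases h1 : x.1 = y.1
  · rw [h1, Matrix.one_apply_eq, map_one]
    by_cases h2 : x.2 = y.2
    · rw [h2, Matrix.one_apply_eq, Matrix.one_apply, if_pos (Prod.ext h1 h2)]
    · rw [Matrix.one_apply_ne h2, Matrix.one_apply_ne (fun h => h2 (congrArg Prod.snd h))]
  · rw [Matrix.one_apply_ne h1, map_zero, Matrix.zero_apply,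
      Matrix.one_apply_ne (fun h => h1 (congrArg Prod.fst h))]

lemma trace_bilin (ρ : Γ →* Matrix (Fin d) (Fin d) R) (D : Derivation ℤ R R)
    (b a : MonoidAlgebra ℤ Γ) :
    (lin ρ b * (lin ρ a).map D).trace = b.coeff.sum fun g β => a.coeff.sum fun h α =>
      (β * α) • (ρ g * (ρ h).map D).trace := by
  induction b using MonoidAlgebra.induction_linear with
  | zero => simp
  | add b b' hb hb' =>
    rw [map_add, add_mul, Matrix.trace_add, hb, hb', MonoidAlgebra.coeff_add]
    symm
    refine Finsupp.sum_add_index' ?_ ?_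
    · intro g; simp
    · intro g β β'
      simp only [Finsupp.sum]
      rw [← Finset.sum_add_distrib]
      apply Finset.sum_congr rfl
      intro h _
      rw [add_mul, add_smul]
  | single g β =>
    have e1 : (MonoidAlgebra.single g β).coeff.sum (fun g β => a.coeff.sum fun h α =>
        (β * α) • (ρ g * (ρ h).map D).trace) =
        a.coeff.sum fun h α => (β * α) • (ρ g * (ρ h).map D).trace := by
      rw [MonoidAlgebra.coeff_single]
      exact Finsupp.sum_single_index (by simp)
    rw [e1]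
    induction a using MonoidAlgebra.induction_linear with
    | zero =>
      simp only [map_zero, MonoidAlgebra.coeff_zero, Finsupp.sum_zero_index]
      have : (0 : Matrix (Fin d) (Fin d) R).map D = 0 := by
        ext i j; simp
      rw [this, mul_zero, Matrix.trace_zero]
    | add a a' ha ha' =>
      have : (lin ρ (a + a')).map D = (lin ρ a).map D + (lin ρ a').map D := by
        ext i j; simp
      rw [this, mul_add, Matrix.trace_add, ha, ha', MonoidAlgebra.coeff_add]
      · symm
        refine Finsupp.sum_add_index' ?_ ?_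
        · intro h; simp
        · intro h α α'
          rw [mul_add, add_smul]
      · rw [MonoidAlgebra.coeff_single]
        exact Finsupp.sum_single_index (by simp)
      · rw [MonoidAlgebra.coeff_single]
        exact Finsupp.sum_single_index (by simp)
    | single h α =>
      rw [MonoidAlgebra.coeff_single, Finsupp.sum_single_index (by simp), lin_single, lin_single]
      have : (α • ρ h).map D = α • (ρ h).map D := by
        ext i j
        rw [Matrix.map_apply, Matrix.smul_apply, Matrix.smul_apply, Matrix.map_apply]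
        exact map_zsmul D α _
      rw [this, smul_mul_assoc, mul_smul_comm, smul_smul, Matrix.trace_smul]

lemma trace_block (ρ : Γ →* Matrix (Fin d) (Fin d) R) (D : Derivation ℤ R R)
    (B A : Matrix (Fin n) (Fin n) (MonoidAlgebra ℤ Γ)) :
    (block ρ B * (block ρ A).map D).trace =
      pairing (fun g h => (ρ g * (ρ h).map D).trace) B A := by
  unfold pairing
  rw [Matrix.trace]
  simp only [Matrix.diag_apply, Matrix.mul_apply]
  rw [Fintype.sum_prod_type]
  apply Finset.sum_congr rfl
  intro i _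
  have e1 : ∀ x : Fin d, ∑ y : Fin n × Fin d, block ρ B (i, x) y * (block ρ A).map D y (i, x) =
      ∑ j : Fin n, ∑ y : Fin d, lin ρ (B i j) x y * D (lin ρ (A j i) y x) := by
    intro x
    rw [Fintype.sum_prod_type]
    rfl
  simp_rw [e1]
  rw [Finset.sum_comm]
  apply Finset.sum_congr rfl
  intro j _
  rw [← trace_bilin, Matrix.trace]
  apply Finset.sum_congr rfl
  intro x _
  rw [Matrix.diag_apply, Matrix.mul_apply]
  rfl

end rep

section main

variable {Γ : Type*} [Group Γ]

lemma pairing_apply {Λ M : Type*} [AddCommGroup M] {n : ℕ} (f : Γ → Γ → Λ → M)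
    (B A : Matrix (Fin n) (Fin n) (MonoidAlgebra ℤ Γ)) (μ : Λ) :
    pairing f B A μ = pairing (fun g h => f g h μ) B A := by
  unfold pairing
  simp only [Finset.sum_apply, Finsupp.sum, Pi.smul_apply]

open scoped Classical in
/-- **The logarithmic derivative of the determinant.** -/
theorem dlog_det {n : ℕ} (A : (Matrix (Fin n) (Fin n) (MonoidAlgebra ℤ Γ))ˣ) {γ : Γ} {p I : ℕ}
    {R : Type*} [CommRing R] {Λ : Type*} (D : Λ → Derivation ℤ R R)
    (hγ : ∀ F : Γ → Γ → (Λ → R), IsCoc F → ∃ m ∈ AddSubgroup.closure (Set.range fun g => F g g),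
      DsumZ (cf A.val) (cf (A⁻¹).val) (supp A.val ∪ supp (A⁻¹).val) F = F 1 γ + p • m)
    {d : ℕ} (ρ : Γ →* Matrix (Fin d) (Fin d) R) :
    ∃ y : R, ∀ μ, D μ ((block ρ A.val).det * (ρ γ⁻¹).det) =
      (p : R) * (((block ρ A.val).det * (ρ γ⁻¹).det) * D μ y) := by
  classical
  set f : Γ → Γ → Λ → R := fun g h μ => (ρ g * (ρ h).map (D μ)).trace with hf
  have hDmul : ∀ μ (X Y : Matrix (Fin d) (Fin d) R), (X * Y).map (D μ) =
      X.map (D μ) * Y + X * Y.map (D μ) := by
    intro μ X Y
    ext i j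
    simp only [Matrix.map_apply, Matrix.mul_apply, Matrix.add_apply, map_sum]
    rw [← Finset.sum_add_distrib]
    apply Finset.sum_congr rfl
    intro k _
    rw [Derivation.leibniz]
    simp only [smul_eq_mul]
    ring
  have hhoch : ∀ x y z, f (x * y) z - f x (y * z) + f (z * x) y = 0 := by
    intro x y z
    funext μ
    simp only [hf, Pi.add_apply, Pi.sub_apply, Pi.zero_apply, map_mul]
    rw [hDmul, mul_add, Matrix.trace_add, ← mul_assoc (ρ x) ((ρ y).map (D μ)) (ρ z),
      Matrix.trace_mul_comm (ρ x * (ρ y).map (D μ)) (ρ z), mul_assoc (ρ z) (ρ x),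
      mul_assoc (ρ x) (ρ y)]
    ring
  have hcoc := isCoc_of_hochschild f hhoch
  obtain ⟨m, hm, hD⟩ := hγ _ hcoc
  have hA : ∀ i j g, (A.val i j).coeff g ≠ 0 → g ∈ supp A.val ∪ supp (A⁻¹).val :=
    fun i j g hg => Finset.mem_union_left _ (mem_supp _ i j g hg)
  have hB : ∀ i j g, ((A⁻¹).val i j).coeff g ≠ 0 → g ∈ supp A.val ∪ supp (A⁻¹).val :=
    fun i j g hg => Finset.mem_union_right _ (mem_supp _ i j g hg)
  rw [← pairing_eq f (A⁻¹).val A.val _ hA hB] at hD
  -- the element y
  have hy : ∃ y : R, ∀ μ, m μ = D μ y := by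
    refine AddSubgroup.closure_induction (p := fun m _ => ∃ y : R, ∀ μ, m μ = D μ y) ?_ ?_ ?_ ?_ hm
    · rintro _ ⟨g, rfl⟩
      refine ⟨(ρ g).trace, fun μ => ?_⟩
      simp only [hf]
      rw [inv_mul_cancel, map_one, one_mul, Matrix.trace, Matrix.trace, map_sum]
      rfl
    · exact ⟨0, fun μ => by simp⟩
    · rintro a b _ _ ⟨y, hy⟩ ⟨y', hy'⟩
      exact ⟨y + y', fun μ => by rw [Pi.add_apply, hy, hy', map_add]⟩
    · rintro a _ ⟨y, hy⟩
      exact ⟨-y, fun μ => by rw [Pi.neg_apply, hy, map_neg]⟩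
  obtain ⟨y, hy⟩ := hy
  refine ⟨y, fun μ => ?_⟩
  have hXY : block ρ A.val * block ρ (A⁻¹).val = 1 := by
    rw [← block_mul, A.mul_inv, block_one]
  have h1 := jacobi (D μ) (block ρ A.val) (block ρ (A⁻¹).val) hXY
  rw [trace_block, ← pairing_apply f, hD, Pi.add_apply, Pi.smul_apply, hy] at h1
  have h2 := jacobi (D μ) (ρ γ) (ρ γ⁻¹) (by rw [← map_mul, mul_inv_cancel, map_one])
  have hab : (ρ γ).det * (ρ γ⁻¹).det = 1 := by
    rw [← Matrix.det_mul, ← map_mul, mul_inv_cancel, map_one, Matrix.det_one]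
  have e1 : f (γ⁻¹ * 1) γ μ = (ρ γ⁻¹ * (ρ γ).map (D μ)).trace := by
    rw [mul_one]
  rw [e1] at h1
  set τ := (ρ γ⁻¹ * (ρ γ).map (D μ)).trace with hτ
  set a := (ρ γ).det with ha
  set b := (ρ γ⁻¹).det with hb
  have h3 : D μ b = - (b * τ) := by
    have h4 := (D μ).leibniz a b
    rw [hab, Derivation.map_one_eq_zero, h2] at h4
    simp only [smul_eq_mul] at h4
    have h5 : b * (a * D μ b + b * (a * τ)) = 0 := by rw [← h4, mul_zero]
    have h6 : (a * b) * D μ b + (a * b) * (b * τ) = 0 := by linear_combination h5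
    rw [hab, one_mul, one_mul] at h6
    exact eq_neg_of_add_eq_zero_left h6
  rw [Derivation.leibniz, h3, h1]
  simp only [smul_eq_mul, nsmul_eq_mul]
  ring

end main

end H219.Wh
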