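import Pool.Agent.H219.Wh.Det

/-!
# Determinants are constant modulo `p`
-/

set_option autoImplicit false
set_option linter.unusedSectionVars false

namespace H219.Wh

open Finset
open Pool.Agent.H23R2 (InvPair IsCoc DsumZ cf supp invPair_units pairing pairing_eq
  isCoc_of_hochschild mem_supp jacobi)

section divis

variable {S : Type*} [CommRing S] {Q : Type*} [CommGroup Q] {p : ℕ}

lemma cancel_pow (hS : ∀ s : S, (p : S) * s = 0 → s = 0) (k : ℕ) (s : S)
    (h : (p : S) ^ k * s = 0) : s = 0 := by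
  induction k with
  | zero => simpa using h
  | succ k ih =>
    apply ih
    apply hS
    rw [← mul_assoc, ← pow_succ']
    exact h

/-- the modulus -/
abbrev Sq (S : Type*) [CommRing S] (N : ℕ) := S ⧸ Ideal.span {(N : S)}

lemma Sq_zero (N : ℕ) : ((N : ℕ) : Sq S N) = 0 := by
  have : ((N : ℕ) : Sq S N) = Ideal.Quotient.mk _ (N : S) := by simp
  rw [this, Ideal.Quotient.eq_zero_iff_mem]
  exact Ideal.subset_span rfl

lemma key_div (hp : p.Prime) (hS : ∀ s : S, (p : S) * s = 0 → s = 0) {i I : ℕ} (hiI : i ≤ I)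
    (χ : Q →* Multiplicative (ZMod (p ^ i))) {q : Q} (hq : χ q ≠ 1) {x : S}
    (hx : ∀ μ : Q →* Multiplicative (Sq S (p ^ I)),
      (μ q).toAdd * Ideal.Quotient.mk (Ideal.span {((p ^ I : ℕ) : S)}) x = 0) :
    ∃ y : S, x = (p : S) * y := by
  haveI : NeZero (p ^ i) := ⟨(pow_pos hp.pos _).ne'⟩
  let f : ℤ →+ Sq S (p ^ I) := zmultiplesHom _ ((p ^ (I - i) : ℕ) : Sq S (p ^ I))
  have hf : f (p ^ i : ℕ) = 0 := by
    show ((p ^ i : ℕ) : ℤ) • ((p ^ (I - i) : ℕ) : Sq S (p ^ I)) = 0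
    rw [zsmul_eq_mul, Int.cast_natCast, ← Nat.cast_mul, ← pow_add, Nat.add_sub_cancel' hiI]
    exact Sq_zero _
  let θ : ZMod (p ^ i) →+ Sq S (p ^ I) := ZMod.lift (p ^ i) ⟨f, hf⟩
  have hθ : ∀ a : ZMod (p ^ i), θ a = ((a.val * p ^ (I - i) : ℕ) : Sq S (p ^ I)) := by
    intro a
    have h1 : a = (((a.val : ℕ) : ℤ) : ZMod (p ^ i)) := by
      rw [Int.cast_natCast, ZMod.natCast_zmod_val]
    conv_lhs => rw [h1]
    rw [ZMod.lift_coe]
    show ((a.val : ℕ) : ℤ) • ((p ^ (I - i) : ℕ) : Sq S (p ^ I)) = _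
    rw [zsmul_eq_mul, Int.cast_natCast, Nat.cast_mul]
  have h2 := hx ((AddMonoidHom.toMultiplicative θ).comp χ)
  have h3 : (((AddMonoidHom.toMultiplicative θ).comp χ) q).toAdd = θ (χ q).toAdd := rfl
  rw [h3, hθ] at h2
  set a : ZMod (p ^ i) := (χ q).toAdd with ha
  have ha0 : a.val ≠ 0 := by
    intro h0
    apply hq
    have h4 : a = 0 := (ZMod.val_eq_zero a).1 h0
    rw [ha] at h4
    exact toAdd_eq_zero.1 h4
  obtain ⟨c, e, he, hce⟩ := Nat.exists_eq_pow_mul_and_not_dvd ha0 p hp.ne_one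
  have he0 : 0 < e := Nat.pos_of_ne_zero (by rintro rfl; exact he (dvd_zero p))
  have hc : c < i := by
    by_contra hcon
    push Not at hcon
    have h5 : a.val < p ^ i := ZMod.val_lt a
    have h6 : p ^ i ≤ p ^ c := Nat.pow_le_pow_right hp.pos hcon
    have h7 : p ^ c ≤ p ^ c * e := Nat.le_mul_of_pos_right _ he0
    omega
  have h4 : Ideal.Quotient.mk (Ideal.span {((p ^ I : ℕ) : S)})
      (((a.val * p ^ (I - i) : ℕ) : S) * x) = 0 := by
    rw [map_mul, map_natCast]
    exact h2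
  rw [Ideal.Quotient.eq_zero_iff_mem, Ideal.mem_span_singleton'] at h4
  obtain ⟨s, hs⟩ := h4
  have h5 : (p : S) ^ (c + (I - i)) * ((e : S) * x - (p : S) ^ (i - c) * s) = 0 := by
    have h6 : (p : S) ^ I = (p : S) ^ (c + (I - i)) * (p : S) ^ (i - c) := by
      rw [← pow_add]
      congr 1
      omega
    rw [mul_sub, ← mul_assoc _ _ s, ← h6]
    have h7 : (p : S) ^ (c + (I - i)) * ((e : S) * x) = ((a.val * p ^ (I - i) : ℕ) : S) * x := by
      rw [hce]
      push_cast
      rw [pow_add]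
      ring
    rw [h7, ← hs]
    push_cast
    ring
  have h6 := sub_eq_zero.1 (cancel_pow hS _ _ h5)
  obtain ⟨c', hc'⟩ : ∃ c', i - c = c' + 1 := ⟨i - c - 1, by omega⟩
  have hcop : IsCoprime (e : ℤ) (p : ℤ) := by
    rw [Nat.isCoprime_iff_coprime]
    exact ((Nat.Prime.coprime_iff_not_dvd hp).2 he).symm
  obtain ⟨u, v, huv⟩ := hcop
  have h7 : (u : S) * (e : S) + (v : S) * (p : S) = 1 := by
    have := congrArg (Int.cast : ℤ → S) huv
    push_cast at this
    exact this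
  refine ⟨u * ((p : S) ^ c' * s) + v * x, ?_⟩
  calc x = (u * e + v * p) * x := by rw [h7, one_mul]
    _ = u * (e * x) + p * (v * x) := by ring
    _ = _ := by rw [h6, hc', pow_succ]; ring

/-- an element of a group algebra all of whose coefficients are divisible by `p` -/
lemma exists_div (x : MonoidAlgebra S Q) (hx : ∀ q, ∃ y : S, x.coeff q = (p : S) * y) :
    ∃ w : MonoidAlgebra S Q, x = (p : MonoidAlgebra S Q) * w := by
  choose y hy using hx
  refine ⟨∑ q ∈ x.coeff.support, MonoidAlgebra.single q (y q), ?_⟩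
  conv_lhs => rw [← MonoidAlgebra.sum_coeff_single x, Finsupp.sum]
  rw [Finset.mul_sum]
  apply Finset.sum_congr rfl
  intro q _
  rw [hy q, MonoidAlgebra.natCast_def, MonoidAlgebra.single_mul_single, one_mul]

end divis

section main

variable {Γ : Type*} [Group Γ]

open scoped Classical in
/-- for `u = det ρ(A) det ρ(γ)⁻¹`, all coefficients except the one at `1` are divisible by `p` -/
theorem u_const {n : ℕ} (A : (Matrix (Fin n) (Fin n) (MonoidAlgebra ℤ Γ))ˣ) {γ : Γ} {p : ℕ}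
    (hp : p.Prime) (hp2 : p ≠ 2)
    {S : Type*} [CommRing S] {Q : Type*} [CommGroup Q] (hS : ∀ s : S, (p : S) * s = 0 → s = 0)
    (hQ : ∀ q : Q, q ≠ 1 → ∃ (i : ℕ) (χ : Q →* Multiplicative (ZMod (p ^ i))), χ q ≠ 1)
    (hγ : ∀ (i : ℕ) (F : Γ → Γ →
        ((Q →* Multiplicative (Sq S (p ^ (i + 1)))) → MonoidAlgebra (Sq S (p ^ (i + 1))) Q)),
        IsCoc F → ∃ m ∈ AddSubgroup.closure (Set.range fun g => F g g),
      DsumZ (cf A.val) (cf (A⁻¹).val) (supp A.val ∪ supp (A⁻¹).val) F = F 1 γ + p • m)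
    {d : ℕ} (ρ : Γ →* Matrix (Fin d) (Fin d) (MonoidAlgebra S Q)) (q : Q) (hq : q ≠ 1) :
    ∃ y : S, ((block ρ A.val).det * (ρ γ⁻¹).det).coeff q = (p : S) * y := by
  obtain ⟨i, χ, hχ⟩ := hQ q hq
  set π : S →+* Sq S (p ^ (i + 1)) := Ideal.Quotient.mk _ with hπ
  set πR : MonoidAlgebra S Q →+* MonoidAlgebra (Sq S (p ^ (i + 1))) Q :=
    MonoidAlgebra.mapRingHom Q π with hπR
  have hcoeff : ∀ (x : MonoidAlgebra S Q) (q : Q), (πR x).coeff q = π (x.coeff q) := by
    intro x q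
    rw [hπR, MonoidAlgebra.coeff_mapRingHom]
  let ρ' : Γ →* Matrix (Fin d) (Fin d) (MonoidAlgebra (Sq S (p ^ (i + 1))) Q) :=
    (πR.mapMatrix.toMonoidHom).comp ρ
  have hblock : block ρ' A.val = (block ρ A.val).map πR := by
    ext1 x y
    simp only [block, Matrix.of_apply, Matrix.map_apply]
    rw [lin_apply, lin_apply, map_finsuppSum]
    simp only [Finsupp.sum, map_mul, map_intCast]
    rfl
  have hu : (block ρ' A.val).det * (ρ' γ⁻¹).det = πR ((block ρ A.val).det * (ρ γ⁻¹).det) := by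
    rw [hblock, map_mul]
    congr 1
    · exact (RingHom.map_det πR _).symm
    · exact (RingHom.map_det πR _).symm
  obtain ⟨y, hy⟩ := dlog_det (p := p) (I := i) A
    (D := fun μ : Q →* Multiplicative (Sq S (p ^ (i + 1))) => DM μ) (hγ i) ρ'
  rw [hu] at hy
  set u := (block ρ A.val).det * (ρ γ⁻¹).det with hudef
  clear_value u
  have hR0 : ((p ^ (i + 1) : ℕ) : MonoidAlgebra (Sq S (p ^ (i + 1))) Q) = 0 := by
    rw [MonoidAlgebra.natCast_def, Sq_zero, MonoidAlgebra.single_zero]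
  obtain ⟨z, hz⟩ := integrate hp hp2 (i + 1) hR0
    (D := fun μ : Q →* Multiplicative (Sq S (p ^ (i + 1))) => DM μ) (i + 1) 1 le_rfl (by omega)
    (πR u) y (by intro μ; rw [pow_one]; exact hy μ)
  obtain ⟨z0, hz0⟩ : ∃ z0, πR z0 = z := by
    have hsurj : Function.Surjective π := Ideal.Quotient.mk_surjective
    induction z using MonoidAlgebra.induction_linear with
    | zero => exact ⟨0, map_zero _⟩
    | add a b ha hb =>
      exact ⟨∑ q ∈ (a + b).coeff.support,
        MonoidAlgebra.single q (Function.surjInv hsurj ((a + b).coeff q)), by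
          rw [map_sum]
          conv_rhs => rw [← MonoidAlgebra.sum_coeff_single (a + b), Finsupp.sum]
          apply Finset.sum_congr rfl
          intro q _
          rw [hπR, MonoidAlgebra.mapRingHom_single, Function.surjInv_eq hsurj]⟩
    | single a c =>
      obtain ⟨c, rfl⟩ := hsurj c
      exact ⟨MonoidAlgebra.single a c, by rw [hπR, MonoidAlgebra.mapRingHom_single]⟩
  have h1 : ∀ μ : Q →* Multiplicative (Sq S (p ^ (i + 1))),
      (μ q).toAdd * π ((u * (1 + (p : MonoidAlgebra S Q) * z0)).coeff q) = 0 := by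
    intro μ
    have h2 := hz μ
    have h3 : πR u * (1 + (p : MonoidAlgebra (Sq S (p ^ (i + 1))) Q) * z) =
        πR (u * (1 + (p : MonoidAlgebra S Q) * z0)) := by
      rw [map_mul, map_add, map_one, map_mul, map_natCast, hz0]
    rw [h3] at h2
    have h4 : (DM μ (πR (u * (1 + (p : MonoidAlgebra S Q) * z0)))).coeff q =
        (0 : MonoidAlgebra (Sq S (p ^ (i + 1))) Q).coeff q := congrArg (fun x => x.coeff q) h2
    rw [DM_coeff, hcoeff, MonoidAlgebra.coeff_zero, Finsupp.zero_apply] at h4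
    exact h4
  obtain ⟨y', hy'⟩ := key_div hp hS (Nat.le_succ i) χ hχ h1
  refine ⟨y' - (u * z0).coeff q, ?_⟩
  have h5 : u * (1 + (p : MonoidAlgebra S Q) * z0) = u + p • (u * z0) := by
    rw [nsmul_eq_mul]; ring
  rw [h5, MonoidAlgebra.coeff_add, Finsupp.add_apply, MonoidAlgebra.coeff_smul_apply,
    nsmul_eq_mul] at hy'
  rw [mul_sub, ← hy']
  ring

end main

end H219.Wh
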