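import Pool.Agent.H219.Wh.Pull

/-!
# The Frobenius relation modulo `p ^ i`
-/

set_option autoImplicit false
set_option linter.unusedSectionVars false
set_option linter.unusedFintypeInType false
set_option linter.unusedDecidableInType false

namespace H219.Wh

open Finset Pool.Agent.H23R2
open scoped Classical

/-- `A` and `B` are inverse to each other (matrices with entries sums of letters) -/
structure IP {I S : Type*} [Fintype I] [Fintype S] {Γ : Type*} [Group Γ] (gr : S → Γ)
    (A B : I → I → S → ℤ) : Prop where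
  ab : ∀ i i' g, ∑ j, ∑ a, ∑ b, (if gr a * gr b = g then A i j a * B j i' b else 0)
    = if i = i' ∧ g = 1 then 1 else 0
  ba : ∀ i i' g, ∑ j, ∑ a, ∑ b, (if gr a * gr b = g then B i j a * A j i' b else 0)
    = if i = i' ∧ g = 1 then 1 else 0

section

variable {I S : Type*} [Fintype I] [Fintype S] {Γ : Type*} [Group Γ] {gr : S → Γ}
  {A B : I → I → S → ℤ}

lemma IP.symm (h : IP gr A B) : IP gr B A := ⟨h.ba, h.ab⟩

/-- pairs of consecutive letters -/
abbrev Yy (I S : Type*) := I × I × S × S

variable {N : ℕ} [NeZero N]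

/-- weight -/
def wt (A B : I → I → S → ℤ) (o : ZMod N → Yy I S) : ℤ :=
  ∏ k, A (o k).1 (o k).2.1 (o k).2.2.1 * B (o k).2.1 (o (k + 1)).1 (o k).2.2.2

/-- first letters -/
def la (gr : S → Γ) (o : ZMod N → Yy I S) (k : ZMod N) : Γ := gr (o k).2.2.1
/-- second letters -/
def lb (gr : S → Γ) (o : ZMod N → Yy I S) (k : ZMod N) : Γ := gr (o k).2.2.2

/-- products of the pairs -/
def UU (gr : S → Γ) (o : ZMod N → Yy I S) : ZMod N → Γ := fun k => la gr o k * lb gr o k
/-- products across the pairs -/
def VV (gr : S → Γ) (o : ZMod N → Yy I S) : ZMod N → Γ := fun k => lb gr o k * la gr o (k + 1)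
/-- the target sequence -/
def TT (gr : S → Γ) (o : ZMod N → Yy I S) : ZMod N → I × Γ := fun k => ((o k).1, UU gr o k)

lemma UU_shift (c : ZMod N) (o : ZMod N → Yy I S) :
    UU gr (shift c o) = shift c (UU gr o) := rfl

lemma VV_shift (c : ZMod N) (o : ZMod N → Yy I S) :
    VV gr (shift c o) = shift c (VV gr o) := by
  funext k
  simp only [VV, la, lb, shift_apply]
  rw [show k + 1 + c = k + c + 1 by ring]

lemma TT_shift (c : ZMod N) (o : ZMod N → Yy I S) :
    TT gr (shift c o) = shift c (TT gr o) := rfl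

lemma wt_shift (c : ZMod N) (o : ZMod N → Yy I S) : wt A B (shift c o) = wt A B o := by
  unfold wt
  refine Fintype.prod_equiv (Equiv.addRight c) _ _ ?_
  intro k
  simp only [shift_apply, Equiv.coe_addRight]
  rw [show k + 1 + c = k + c + 1 by ring]

lemma sum_wt_pi (t : ZMod N → I × Γ) (Ts : ZMod N → Finset (Yy I S))
    (hTs : ∀ k, ∀ y ∈ Ts k, y.1 = (t k).1) :
    ∑ o ∈ Fintype.piFinset Ts, wt A B o =
      ∏ k, ∑ y ∈ Ts k, A y.1 y.2.1 y.2.2.1 * B y.2.1 (t (k + 1)).1 y.2.2.2 := by
  rw [Finset.prod_univ_sum]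
  apply Finset.sum_congr rfl
  intro o ho
  rw [Fintype.mem_piFinset] at ho
  unfold wt
  apply Finset.prod_congr rfl
  intro k _
  rw [hTs _ _ (ho (k + 1))]

lemma inner_sum (h : IP gr A B) (t : I × Γ) (i' : I) :
    ∑ y : Yy I S with (y.1, gr y.2.2.1 * gr y.2.2.2) = t,
      A y.1 y.2.1 y.2.2.1 * B y.2.1 i' y.2.2.2 = if t.1 = i' ∧ t.2 = 1 then 1 else 0 := by
  rw [← h.ab t.1 i' t.2, Finset.sum_filter]
  rw [Fintype.sum_prod_type]
  rw [Finset.sum_eq_single t.1]
  · rw [Fintype.sum_prod_type]
    apply Finset.sum_congr rfl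
    intro j _
    rw [Fintype.sum_prod_type]
    apply Finset.sum_congr rfl
    intro a _
    apply Finset.sum_congr rfl
    intro b _
    simp only [Prod.ext_iff, true_and]
  · intro i _ hi
    apply Finset.sum_eq_zero
    intro y _
    rw [if_neg]
    intro hh
    exact hi (congrArg Prod.fst hh)
  · intro hh
    exact absurd (Finset.mem_univ _) hh

/-- the value of a fibre sum -/
noncomputable def cN (t : ZMod N → I × Γ) : ℤ :=
  ∏ k, if (t k).1 = (t (k + 1)).1 ∧ (t k).2 = 1 then 1 else 0

/-- sum of weights over the fibre of `T` -/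
lemma sum_wt_fibre (h : IP gr A B) (t : ZMod N → I × Γ) :
    ∑ o : ZMod N → Yy I S with TT gr o = t, wt A B o = cN t := by
  have h1 := sum_wt_pi (A := A) (B := B) t
    (fun k => Finset.univ.filter (fun y : Yy I S => (y.1, gr y.2.2.1 * gr y.2.2.2) = t k))
    (by intro k y hy; simp only [Finset.mem_filter, Finset.mem_univ, true_and] at hy
        rw [← hy])
  simp_rw [inner_sum h] at h1
  unfold cN
  rw [← h1]
  apply Finset.sum_congr _ (fun _ _ => rfl)
  ext o
  simp only [Finset.mem_filter, Finset.mem_univ, true_and, Fintype.mem_piFinset]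
  constructor
  · intro ho k
    rw [← ho]; rfl
  · intro ho
    funext k
    exact ho k

lemma const_of_cN (t : ZMod N → I × Γ) (ht : cN t ≠ 0) : ∀ k, t k = t 0 := by
  have hne : ∀ k, (t k).1 = (t (k + 1)).1 ∧ (t k).2 = 1 := by
    intro k
    by_contra hc
    exact ht (Finset.prod_eq_zero (Finset.mem_univ k) (if_neg hc))
  intro k
  have h1 : ∀ n : ℕ, (t (n : ZMod N)).1 = (t 0).1 := by
    intro n
    induction n with
    | zero => simp
    | succ n ih => rw [← ih, (hne n).1]; push_cast; rfl
  have h2 := h1 k.val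
  rw [ZMod.natCast_zmod_val] at h2
  exact Prod.ext h2 (by rw [(hne k).2, (hne 0).2])

/-- the target sequence with a single nontrivial entry -/
def t0 (gr : S → Γ) (y : Yy I S) : ZMod N → I × Γ := fun k =>
  if k = 0 then (y.1, gr y.2.2.1 * gr y.2.2.2) else (y.1, 1)

lemma sum_wt_head (h : IP gr A B) (y : Yy I S)
    (t : ZMod N → I × Γ) (hty : t 0 = (y.1, gr y.2.2.1 * gr y.2.2.2)) :
    ∑ o : ZMod N → Yy I S with (o 0 = y ∧ TT gr o = t), wt A B o =
      if t = t0 gr y then A y.1 y.2.1 y.2.2.1 * B y.2.1 y.1 y.2.2.2 else 0 := by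
  have h1 := sum_wt_pi (A := A) (B := B) t
    (fun k => if k = 0 then {y} else
      Finset.univ.filter (fun y : Yy I S => (y.1, gr y.2.2.1 * gr y.2.2.2) = t k))
    (by
      intro k z hz
      by_cases hk : k = 0
      · subst hk
        simp only [if_true, Finset.mem_singleton] at hz
        rw [hz, hty]
      · simp only [if_neg hk, Finset.mem_filter, Finset.mem_univ, true_and] at hz
        rw [← hz])
  have h2 : Finset.univ.filter (fun o : ZMod N → Yy I S => o 0 = y ∧ TT gr o = t) =
      Fintype.piFinset (fun k => if k = 0 then {y} else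
      Finset.univ.filter (fun y : Yy I S => (y.1, gr y.2.2.1 * gr y.2.2.2) = t k)) := by
    ext o
    simp only [Finset.mem_filter, Finset.mem_univ, true_and, Fintype.mem_piFinset]
    constructor
    · rintro ⟨h0, ho⟩ k
      by_cases hk : k = 0
      · subst hk; simp [h0]
      · rw [if_neg hk]
        simp only [Finset.mem_filter, Finset.mem_univ, true_and]
        rw [← ho]; rfl
    · intro ho
      have h0 : o 0 = y := by simpa using ho 0
      refine ⟨h0, ?_⟩
      funext k
      by_cases hk : k = 0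
      · subst hk
        rw [hty, ← h0]; rfl
      · have := ho k
        rw [if_neg hk] at this
        simp only [Finset.mem_filter, Finset.mem_univ, true_and] at this
        exact this
  rw [h2, h1]
  have h3 : ∀ k : ZMod N, (∑ z ∈ (if k = 0 then ({y} : Finset (Yy I S)) else
      Finset.univ.filter (fun y : Yy I S => (y.1, gr y.2.2.1 * gr y.2.2.2) = t k)),
      A z.1 z.2.1 z.2.2.1 * B z.2.1 (t (k + 1)).1 z.2.2.2) =
      if k = 0 then A y.1 y.2.1 y.2.2.1 * B y.2.1 (t 1).1 y.2.2.2 else
        (if (t k).1 = (t (k + 1)).1 ∧ (t k).2 = 1 then 1 else 0) := by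
    intro k
    by_cases hk : k = 0
    · subst hk; simp
    · rw [if_neg hk, if_neg hk, inner_sum h]
  simp_rw [h3]
  by_cases ht : t = t0 gr y
  · rw [if_pos ht, Finset.prod_eq_single 0]
    · rw [if_pos rfl]
      have : (t 1).1 = y.1 := by
        rw [ht]; unfold t0; split_ifs <;> rfl
      rw [this]
    · intro k _ hk
      rw [if_neg hk, if_pos]
      have e1 : (t (k + 1)).1 = y.1 := by
        rw [ht]; unfold t0; split_ifs <;> rfl
      have e2 : t k = (y.1, 1) := by
        rw [ht]; unfold t0; rw [if_neg hk]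
      rw [e1, e2]
      exact ⟨rfl, rfl⟩
    · intro hh; exact absurd (Finset.mem_univ _) hh
  · rw [if_neg ht]
    by_contra hne
    apply ht
    have hall : ∀ k : ZMod N, k ≠ 0 → ((t k).1 = (t (k + 1)).1 ∧ (t k).2 = 1) := by
      intro k hk
      by_contra hc
      apply hne
      apply Finset.prod_eq_zero (Finset.mem_univ k)
      rw [if_neg hk, if_neg hc]
    have hfst : ∀ n : ℕ, n < N → (t (-(n : ZMod N))).1 = (t 0).1 := by
      intro n
      induction n with
      | zero => intro _; simp
      | succ n ih =>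
        intro hn
        rw [← ih (by omega)]
        have hk : (-((n + 1 : ℕ) : ZMod N)) ≠ 0 := by
          rw [neg_ne_zero]
          intro hc
          rw [ZMod.natCast_eq_zero_iff] at hc
          exact absurd (Nat.le_of_dvd (by omega) hc) (by omega)
        rw [(hall _ hk).1]
        congr 2
        push_cast; ring
    funext k
    unfold t0
    by_cases hk : k = 0
    · subst hk; rw [if_pos rfl, hty]
    · rw [if_neg hk]
      have e := hfst (-k).val (ZMod.val_lt _)
      rw [ZMod.natCast_zmod_val, neg_neg, hty] at e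
      exact Prod.ext e (hall k hk).2

lemma W_t0 (y : Yy I S) : W (fun k => (t0 (N := N) gr y k).2) 0 = gr y.2.2.1 * gr y.2.2.2 := by
  have h : ∀ m : ℕ, m < N → pr (fun k => (t0 (N := N) gr y k).2) 0 (m + 1) =
      gr y.2.2.1 * gr y.2.2.2 := by
    intro m
    induction m with
    | zero => intro _; simp [pr, t0]
    | succ m ih =>
      intro hm
      rw [pr_succ, ih (by omega)]
      have hk : (0 + ((m + 1 : ℕ) : ZMod N)) ≠ 0 := by
        rw [zero_add]
        intro hc
        rw [ZMod.natCast_eq_zero_iff] at hc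
        exact absurd (Nat.le_of_dvd (by omega) hc) (by omega)
      simp only [t0, if_neg hk, mul_one]
  have hp : 0 < N := Nat.pos_of_ne_zero (NeZero.ne N)
  have := h (N - 1) (by omega)
  rwa [Nat.sub_add_cancel hp] at this

variable {M : Type*} [AddCommGroup M]

/-- the pairing -/
def Dsum (gr : S → Γ) (A B : I → I → S → ℤ) (F : Γ → Γ → M) : M :=
  ∑ y : Yy I S, (A y.1 y.2.1 y.2.2.1 * B y.2.1 y.1 y.2.2.2) •
    F (gr y.2.2.1 * gr y.2.2.2) (gr y.2.2.1)

/-- the summand -/
def Gf (gr : S → Γ) (F : Γ → Γ → M) (o : ZMod N → Yy I S) : M := F (W (UU gr o) 0) (la gr o 0)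

lemma total_sum (h : IP gr A B) (F : Γ → Γ → M) :
    ∑ o : ZMod N → Yy I S, wt A B o • Gf gr F o = Dsum gr A B F := by
  unfold Dsum
  rw [← Finset.sum_fiberwise (s := Finset.univ) (g := fun o : ZMod N → Yy I S => o 0)]
  apply Finset.sum_congr rfl
  intro y _
  set s : Finset (ZMod N → Yy I S) := Finset.univ.filter (fun o => o 0 = y) with hs
  set tt : Finset (ZMod N → I × Γ) := insert (t0 gr y) (s.image (TT gr)) with htt
  rw [← Finset.sum_fiberwise_of_maps_to (s := s) (t := tt) (g := TT gr)
    (fun o ho => Finset.mem_insert_of_mem (Finset.mem_image_of_mem _ ho))]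
  have key : ∀ t ∈ tt, ∑ o ∈ s with TT gr o = t, wt A B o • Gf gr F o =
      (if t = t0 gr y then A y.1 y.2.1 y.2.2.1 * B y.2.1 y.1 y.2.2.2 else 0) •
        F (W (fun k => (t k).2) 0) (gr y.2.2.1) := by
    intro t ht
    have hty : t 0 = (y.1, gr y.2.2.1 * gr y.2.2.2) := by
      rw [htt, Finset.mem_insert] at ht
      rcases ht with ht | ht
      · rw [ht]; simp [t0]
      · rw [Finset.mem_image] at ht
        obtain ⟨o, ho, rfl⟩ := ht
        rw [hs, Finset.mem_filter] at ho
        rw [← ho.2]; rfl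
    rw [← sum_wt_head h y t hty, Finset.sum_smul]
    rw [hs, Finset.filter_filter]
    apply Finset.sum_congr rfl
    intro o ho
    rw [Finset.mem_filter] at ho
    obtain ⟨_, h0, hT⟩ := ho
    congr 1
    unfold Gf
    rw [← hT]
    congr 1
    simp [la, h0]
  rw [Finset.sum_congr rfl key]
  rw [Finset.sum_eq_single_of_mem (t0 gr y) (Finset.mem_insert_self _ _)]
  · rw [if_pos rfl, W_t0]
  · intro t _ ht
    rw [if_neg ht, zero_smul]

end

section main

variable {I S : Type*} [Fintype I] [Fintype S] {Γ : Type*} [Group Γ] {gr : S → Γ}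
  {A B : I → I → S → ℤ} {p i : ℕ} [hp : Fact p.Prime] {M : Type*} [AddCommGroup M]

lemma wt_pull (hA : ∀ i j a, A i j a ^ p = A i j a) (hB : ∀ i j a, B i j a ^ p = B i j a)
    (o : ZMod (p ^ i) → Yy I S) : wt A B (pull o) = wt A B o := by
  have h1 : wt A B (pull o) = (wt A B o) ^ p := by
    unfold wt
    rw [← prod_red]
    apply Finset.prod_congr rfl
    intro k _
    simp only [pull]
    rw [map_add, map_one]
  rw [h1]
  unfold wt
  rw [← Finset.prod_pow]
  apply Finset.prod_congr rfl
  intro k _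
  rw [mul_pow, hA, hB]

lemma cN_pull (t : ZMod (p ^ i) → I × Γ) : cN (pull t) = cN t := by
  have h1 : cN (pull t) = (cN t) ^ p := by
    unfold cN
    rw [← prod_red]
    apply Finset.prod_congr rfl
    intro k _
    simp only [pull, map_add, map_one]
  rw [h1]
  unfold cN
  rw [← Finset.prod_pow]
  apply Finset.prod_congr rfl
  intro k _
  split_ifs
  · simp
  · exact zero_pow hp.out.pos.ne'

lemma TT_pull (o : ZMod (p ^ i) → Yy I S) : TT gr (pull o) = pull (TT gr o) := rfl

lemma UU_pull (o : ZMod (p ^ i) → Yy I S) : UU gr (pull o) = pull (UU gr o) := rfl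

/-- the rotation-free words in a fibre contribute zero -/
lemma fibre_Fr (h : IP gr A B) (hA : ∀ i j a, A i j a ^ p = A i j a)
    (hB : ∀ i j a, B i j a ^ p = B i j a) (t : ZMod (p ^ (i + 1)) → I × Γ) :
    ∑ o : ZMod (p ^ (i + 1)) → Yy I S with (Fr o ∧ TT gr o = t), wt A B o = 0 := by
  have h1 := sum_wt_fibre h t
  have h2 : ∑ o : ZMod (p ^ (i + 1)) → Yy I S with TT gr o = t, wt A B o =
      ∑ o : ZMod (p ^ (i + 1)) → Yy I S with (Fr o ∧ TT gr o = t), wt A B o +
      ∑ o : ZMod (p ^ (i + 1)) → Yy I S with ¬ Fr o, (if TT gr o = t then wt A B o else 0) := by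
    rw [← Finset.sum_filter_add_sum_filter_not (s := Finset.univ.filter
      (fun o : ZMod (p ^ (i + 1)) → Yy I S => TT gr o = t)) (p := fun o => Fr o)]
    congr 1
    · rw [Finset.filter_filter]
      apply Finset.sum_congr _ (fun _ _ => rfl)
      ext o
      simp [and_comm]
    · rw [Finset.filter_filter, ← Finset.sum_filter, Finset.filter_filter]
      apply Finset.sum_congr _ (fun _ _ => rfl)
      ext o
      simp [and_comm]
  have h3 : ∑ o : ZMod (p ^ (i + 1)) → Yy I S with ¬ Fr o,
      (if TT gr o = t then wt A B o else 0) = cN t := by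
    rw [sum_periodic]
    by_cases ht : ∃ t', pull t' = t
    · obtain ⟨t', rfl⟩ := ht
      rw [cN_pull, ← sum_wt_fibre h t', Finset.sum_filter]
      apply Finset.sum_congr rfl
      intro o _
      rw [wt_pull hA hB, TT_pull]
      by_cases ho : TT gr o = t'
      · rw [if_pos ho, if_pos (by rw [ho])]
      · rw [if_neg ho, if_neg (fun hh => ho (pull_inj hh))]
    · have h4 : cN t = 0 := by
        by_contra hc
        apply ht
        refine ⟨fun _ => t 0, ?_⟩
        funext k
        exact (const_of_cN t hc k).symm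
      rw [h4]
      apply Finset.sum_eq_zero
      intro o _
      rw [if_neg]
      intro hh
      exact ht ⟨TT gr o, (TT_pull o).symm.trans hh⟩
  rw [h1, h3] at h2
  linarith

/-- rotation equivalence -/
def rotSetoid (N : ℕ) (X : Type*) : Setoid (ZMod N → X) where
  r := fun g g' => ∃ c, g' = shift c g
  iseqv :=
    { refl := fun g => ⟨0, by simp⟩
      symm := by
        rintro g g' ⟨c, rfl⟩
        exact ⟨-c, by rw [shift_neg_shift]⟩
      trans := by
        rintro g g' g'' ⟨c, rfl⟩ ⟨d, rfl⟩
        exact ⟨d + c, by rw [shift_shift]⟩ }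

/-- the sum over orbits of a rotation invariant function of the target sequence vanishes -/
lemma sum_inv (h : IP gr A B) (hA : ∀ i j a, A i j a ^ p = A i j a)
    (hB : ∀ i j a, B i j a ^ p = B i j a)
    (l : (ZMod (p ^ (i + 1)) → Yy I S) → ZMod (p ^ (i + 1)))
    (hl : ∀ o, Fr o → ∀ c, l (shift c o) = l o + c)
    (ψ : (ZMod (p ^ (i + 1)) → I × Γ) → M) (hψ : ∀ c t, ψ (shift c t) = ψ t) :
    ∑ o with (Fr o ∧ l o = 0), wt A B o • ψ (TT gr o) = 0 := by
  let r := rotSetoid (p ^ (i + 1)) (I × Γ)
  let π : (ZMod (p ^ (i + 1)) → I × Γ) → Quotient r := Quotient.mk r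
  have hπ : ∀ c t, π (shift c t) = π t := fun c t =>
    (Quotient.sound (s := r) ⟨c, rfl⟩).symm
  set s : Finset (ZMod (p ^ (i + 1)) → Yy I S) :=
    Finset.univ.filter (fun o => Fr o ∧ l o = 0) with hs
  rw [← Finset.sum_fiberwise_of_maps_to (s := s) (t := s.image (fun o => π (TT gr o)))
    (g := fun o => π (TT gr o)) (fun o ho => Finset.mem_image_of_mem _ ho)]
  apply Finset.sum_eq_zero
  intro q _
  have hn : ∑ o ∈ s with π (TT gr o) = q, wt A B o = 0 := by
    have h1 := sum_orbit' (N := p ^ (i + 1)) (M := ℤ)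
      (fun o : ZMod (p ^ (i + 1)) → Yy I S => Fr o ∧ π (TT gr o) = q)
      (fun o ho c => ⟨Fr_shift ho.1 c, by rw [TT_shift, hπ]; exact ho.2⟩) l
      (fun o ho c => hl o ho.1 c) (fun o => wt A B o)
    simp_rw [wt_shift, Finset.sum_const, Finset.card_univ, ZMod.card] at h1
    rw [← Finset.smul_sum] at h1
    have h2 : ∑ o : ZMod (p ^ (i + 1)) → Yy I S with (Fr o ∧ π (TT gr o) = q), wt A B o = 0 := by
      set s' := Finset.univ.filter
        (fun o : ZMod (p ^ (i + 1)) → Yy I S => Fr o ∧ π (TT gr o) = q) with hs'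
      rw [← Finset.sum_fiberwise_of_maps_to (s := s') (t := s'.image (TT gr)) (g := TT gr)
        (fun o ho => Finset.mem_image_of_mem _ ho)]
      apply Finset.sum_eq_zero
      intro t ht
      rw [Finset.mem_image] at ht
      obtain ⟨o', ho', rfl⟩ := ht
      rw [hs', Finset.mem_filter] at ho'
      rw [← fibre_Fr h hA hB (TT gr o')]
      rw [hs', Finset.filter_filter]
      apply Finset.sum_congr _ (fun _ _ => rfl)
      ext o
      simp only [Finset.mem_filter, Finset.mem_univ, true_and]
      constructor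
      · rintro ⟨⟨h3, _⟩, h4⟩
        exact ⟨h3, h4⟩
      · rintro ⟨h3, h4⟩
        refine ⟨⟨h3, ?_⟩, h4⟩
        rw [h4]
        exact ho'.2.2
    have h1a : ∑ o : ZMod (p ^ (i + 1)) → Yy I S with (Fr o ∧ π (TT gr o) = q), wt A B o =
        (p ^ (i + 1)) • ∑ o : ZMod (p ^ (i + 1)) → Yy I S with
          ((Fr o ∧ π (TT gr o) = q) ∧ l o = 0), wt A B o := by
      convert h1
    rw [h2] at h1a
    have h3 : ∑ o ∈ s with π (TT gr o) = q, wt A B o =
        ∑ o : ZMod (p ^ (i + 1)) → Yy I S with ((Fr o ∧ π (TT gr o) = q) ∧ l o = 0),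
          wt A B o := by
      rw [hs, Finset.filter_filter]
      apply Finset.sum_congr _ (fun _ _ => rfl)
      ext o
      simp only [Finset.mem_filter, Finset.mem_univ, true_and]
      tauto
    rw [h3]
    have h4 := h1a.symm
    rw [smul_eq_zero] at h4
    rcases h4 with h4 | h4
    · exact absurd h4 (pow_pos hp.out.pos _).ne'
    · convert h4
  have h5 : ∀ o ∈ s.filter (fun o => π (TT gr o) = q), wt A B o • ψ (TT gr o) =
      wt A B o • ψ (Quotient.out q) := by
    intro o ho
    rw [Finset.mem_filter] at ho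
    congr 1
    have h6 : π (Quotient.out q) = π (TT gr o) := by
      rw [ho.2]; exact Quotient.out_eq q
    obtain ⟨c, hc⟩ := (Quotient.exact h6 : r.r _ _)
    rw [hc, hψ]
  rw [Finset.sum_congr rfl h5, ← Finset.sum_smul, hn, zero_smul]

/-- exchange the roles of the two matrices -/
def swp {N : ℕ} (o : ZMod N → Yy I S) : ZMod N → Yy I S := fun k =>
  ((o k).2.1, (o (k + 1)).1, (o k).2.2.2, (o (k + 1)).2.2.1)

/-- the inverse exchange -/
def swpi {N : ℕ} (o : ZMod N → Yy I S) : ZMod N → Yy I S := fun k =>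
  ((o (k - 1)).2.1, (o k).1, (o (k - 1)).2.2.2, (o k).2.2.1)

lemma swpi_swp {N : ℕ} (o : ZMod N → Yy I S) : swpi (swp o) = o := by
  funext k
  simp [swpi, swp]

lemma swp_swpi {N : ℕ} (o : ZMod N → Yy I S) : swp (swpi o) = o := by
  funext k
  simp [swpi, swp]

lemma swp_shift {N : ℕ} (c : ZMod N) (o : ZMod N → Yy I S) :
    swp (shift c o) = shift c (swp o) := by
  funext k
  simp only [swp, shift_apply]
  rw [show k + 1 + c = k + c + 1 by ring]

lemma swpi_shift {N : ℕ} (c : ZMod N) (o : ZMod N → Yy I S) :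
    swpi (shift c o) = shift c (swpi o) := by
  rw [← swpi_swp (shift c (swpi o)), swp_shift, swp_swpi]

lemma Fr_swp {N : ℕ} (o : ZMod N → Yy I S) : Fr (swp o) ↔ Fr o := by
  constructor
  · intro h c hc
    apply h c
    rw [← swp_shift, hc]
  · intro h c hc
    apply h c
    rw [← swp_shift] at hc
    have := congrArg swpi hc
    rwa [swpi_swp, swpi_swp] at this

lemma wt_swp {N : ℕ} [NeZero N] (o : ZMod N → Yy I S) :
    wt B A (swp o) = wt A B o := by
  unfold wt
  simp only [swp]
  rw [Finset.prod_mul_distrib, Finset.prod_mul_distrib, mul_comm]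
  congr 1
  refine Fintype.prod_equiv (Equiv.addRight 1) _ _ ?_
  intro k
  simp

lemma UU_swp {N : ℕ} [NeZero N] (o : ZMod N → Yy I S) : UU gr (swp o) = VV gr o := rfl

/-- **The Frobenius relation modulo `p ^ (i+1)`** -/
theorem frobenius_relation (h : IP gr A B) (hA : ∀ i j a, A i j a ^ p = A i j a)
    (hB : ∀ i j a, B i j a ^ p = B i j a) (hM : ∀ x : M, (p ^ (i + 1)) • x = 0)
    {F : Γ → Γ → M} (hF : IsCoc F) (hb : ∀ w, F w w = 0) :
    Dsum gr A B F = Dsum gr A B (fun w x => F (w ^ p) x) := by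
  letI : Module (ZMod (p ^ (i + 1))) M := AddCommGroup.zmodModule hM
  rw [← total_sum (N := p ^ (i + 1)) h F, ← total_sum (N := p ^ i) h (fun w x => F (w ^ p) x)]
  rw [← Finset.sum_filter_add_sum_filter_not (s := Finset.univ)
    (p := fun o : ZMod (p ^ (i + 1)) → Yy I S => Fr o)]
  obtain ⟨l, hl⟩ := exists_phase' (N := p ^ (i + 1)) (Yy I S)
  have h1 : ∑ o : ZMod (p ^ (i + 1)) → Yy I S with Fr o, wt A B o • Gf gr F o = 0 := by
    rw [sum_orbit' (fun o => Fr o) (fun o ho c => Fr_shift ho c) l hl]
    have h2 : ∀ o : ZMod (p ^ (i + 1)) → Yy I S,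
        ∑ c : ZMod (p ^ (i + 1)), wt A B (shift c o) • Gf gr F (shift c o) =
        wt A B o • Psi' F (UU gr o) - wt A B o • Psi' F (VV gr o) := by
      intro o
      simp_rw [wt_shift]
      rw [← Finset.smul_sum, ← smul_sub]
      congr 1
      rw [show UU gr o = fun k => la gr o k * lb gr o k from rfl,
        show VV gr o = fun k => lb gr o k * la gr o (k + 1) from rfl, ← sum_coc' hF]
      apply Finset.sum_congr rfl
      intro c _
      unfold Gf
      rw [UU_shift, W_shift, zero_add]
      congr 1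
      simp [la]
    simp_rw [h2]
    rw [Finset.sum_sub_distrib]
    have h3 : ∑ o with (Fr o ∧ l o = 0), wt A B o • Psi' F (UU gr o) = 0 :=
      sum_inv h hA hB l hl (fun t => Psi' F (fun k => (t k).2)) (by
        intro c t
        exact Psi'_shift hF hb c (fun k => (t k).2))
    have h4 : ∑ o with (Fr o ∧ l o = 0), wt A B o • Psi' F (VV gr o) = 0 := by
      have h5 := sum_inv (gr := gr) h.symm hB hA (fun o => l (swpi o)) (by
        intro o ho c
        show l (swpi (shift c o)) = l (swpi o) + c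
        rw [swpi_shift]
        apply hl
        rw [← Fr_swp, swp_swpi]; exact ho) (fun t => Psi' F (fun k => (t k).2)) (by
        intro c t
        exact Psi'_shift hF hb c (fun k => (t k).2))
      rw [← h5]
      refine Finset.sum_nbij' swp swpi ?_ ?_ ?_ ?_ ?_
      · intro o ho
        simp only [Finset.mem_filter, Finset.mem_univ, true_and] at ho ⊢
        rw [Fr_swp, swpi_swp]; exact ho
      · intro o ho
        simp only [Finset.mem_filter, Finset.mem_univ, true_and] at ho ⊢
        rw [← Fr_swp, swp_swpi]; exact ho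
      · intro o _; exact swpi_swp o
      · intro o _; exact swp_swpi o
      · intro o _
        rw [wt_swp]
        rfl
    rw [h3, h4, sub_zero]
  rw [h1, zero_add, sum_periodic]
  apply Finset.sum_congr rfl
  intro o _
  rw [wt_pull hA hB]
  congr 1
  unfold Gf
  rw [UU_pull, W_pull]
  simp [la, pull]

end main

end H219.Wh
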