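import Pool.Agent.H219.Wh.Chain
import Pool.Agent.H23R2.Bridge

/-!
# Letters: from integral coefficients to coefficients `0, 1, -1`
-/

set_option autoImplicit false
set_option linter.unusedSectionVars false

namespace H219.Wh

open Finset
open Pool.Agent.H23R2 (InvPair IsCoc DsumZ cf supp invPair_units pairing pairing_eq
  isCoc_of_hochschild mem_supp)
open scoped Classical

variable {I : Type*} [Fintype I] {Γ : Type*} [Group Γ] {M : Type*} [AddCommGroup M]

/-- the letters -/
def lett (a : I → I → Γ → ℤ) (T : Finset Γ) (K : ℕ) : I → I → (T × Fin K) → ℤ := fun i j s =>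
  if (s.2 : ℕ) < (a i j s.1).natAbs then (a i j s.1).sign else 0

/-- the group element of a letter -/
def grl (T : Finset Γ) (K : ℕ) : T × Fin K → Γ := fun s => s.1

lemma sum_lett (a : I → I → Γ → ℤ) (T : Finset Γ) (K : ℕ) (i j : I) (x : T)
    (hK : (a i j x).natAbs ≤ K) : ∑ k : Fin K, lett a T K i j (x, k) = a i j x := by
  unfold lett
  simp only
  rw [Fin.sum_univ_eq_sum_range (fun k => if k < (a i j x).natAbs then (a i j x).sign else 0) K]
  rw [← Finset.sum_filter]
  have h : (Finset.range K).filter (fun k => k < (a i j x).natAbs) =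
      Finset.range (a i j x).natAbs := by
    ext k
    simp only [Finset.mem_filter, Finset.mem_range]
    omega
  rw [h, Finset.sum_const, Finset.card_range, nsmul_eq_mul, mul_comm]
  exact Int.sign_mul_natAbs _

lemma lett_pow {p : ℕ} (hp : Odd p) (a : I → I → Γ → ℤ) (T : Finset Γ) (K : ℕ) (i j : I)
    (s : T × Fin K) : lett a T K i j s ^ p = lett a T K i j s := by
  have hp0 : p ≠ 0 := by rintro rfl; exact absurd hp (by decide)
  unfold lett
  split_ifs
  · rcases Int.sign_trichotomy (a i j s.1) with h | h | h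
    · rw [h, one_pow]
    · rw [h, zero_pow hp0]
    · rw [h, hp.neg_one_pow]
  · exact zero_pow hp0

lemma sum_letters (a b : I → I → Γ → ℤ) (T : Finset Γ) (K : ℕ)
    (ha : ∀ i j g, (a i j g).natAbs ≤ K) (hb : ∀ i j g, (b i j g).natAbs ≤ K)
    (i j i' j' : I) (G : Γ → Γ → M) :
    ∑ s : T × Fin K, ∑ t : T × Fin K, (lett a T K i j s * lett b T K i' j' t) •
      G (grl T K s) (grl T K t) = ∑ x ∈ T, ∑ y ∈ T, (a i j x * b i' j' y) • G x y := by
  rw [Fintype.sum_prod_type, ← Finset.sum_coe_sort T]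
  apply Finset.sum_congr rfl
  intro x _
  have h1 : ∀ k : Fin K, ∑ t : T × Fin K, (lett a T K i j (x, k) * lett b T K i' j' t) •
      G (grl T K (x, k)) (grl T K t) =
      lett a T K i j (x, k) • ∑ y : T, b i' j' y • G x y := by
    intro k
    rw [Fintype.sum_prod_type, Finset.smul_sum]
    apply Finset.sum_congr rfl
    intro y _
    simp only [grl, mul_smul]
    rw [← Finset.smul_sum, ← Finset.sum_smul, sum_lett b T K i' j' y (hb _ _ _)]
  simp_rw [h1]
  rw [← Finset.sum_smul, sum_lett a T K i j x (ha _ _ _), ← Finset.sum_coe_sort T,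
    Finset.smul_sum]
  apply Finset.sum_congr rfl
  intro y _
  rw [mul_smul]

lemma ip_half {a b : I → I → Γ → ℤ} {T : Finset Γ} (K : ℕ)
    (ha : ∀ i j g, (a i j g).natAbs ≤ K) (hb : ∀ i j g, (b i j g).natAbs ≤ K)
    (h : ∀ i i' g, ∑ j, ∑ x ∈ T, ∑ y ∈ T, (if x * y = g then a i j x * b j i' y else 0)
      = if i = i' ∧ g = 1 then 1 else 0) (i i' : I) (g : Γ) :
    ∑ j, ∑ s, ∑ t, (if grl T K s * grl T K t = g then lett a T K i j s * lett b T K j i' t else 0)
      = if i = i' ∧ g = 1 then 1 else 0 := by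
  rw [← h i i' g]
  apply Finset.sum_congr rfl
  intro j _
  have h1 := sum_letters a b T K ha hb i j j i' (fun x y => if x * y = g then (1 : ℤ) else 0)
  simp only [smul_eq_mul, mul_ite, mul_one, mul_zero] at h1
  exact h1

lemma ip_of_invPair {a b : I → I → Γ → ℤ} {T : Finset Γ} (h : InvPair a b T) (K : ℕ)
    (ha : ∀ i j g, (a i j g).natAbs ≤ K) (hb : ∀ i j g, (b i j g).natAbs ≤ K) :
    IP (grl T K) (lett a T K) (lett b T K) :=
  ⟨fun i i' g => ip_half K ha hb h.ab i i' g, fun i i' g => ip_half K hb ha h.ba i i' g⟩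

lemma Dsum_lett (a b : I → I → Γ → ℤ) (T : Finset Γ) (K : ℕ)
    (ha : ∀ i j g, (a i j g).natAbs ≤ K) (hb : ∀ i j g, (b i j g).natAbs ≤ K)
    (F : Γ → Γ → M) :
    Dsum (grl T K) (lett a T K) (lett b T K) F = DsumZ a b T F := by
  unfold Dsum DsumZ
  rw [Fintype.sum_prod_type, Fintype.sum_prod_type]
  apply Finset.sum_congr rfl
  intro i _
  rw [Fintype.sum_prod_type, Fintype.sum_prod_type]
  apply Finset.sum_congr rfl
  intro j _
  have h1 := sum_letters a b T K ha hb i j j i (fun x y => F (x * y) x)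
  have e1 : ∑ x : (T × Fin K) × (T × Fin K), (lett a T K i j x.1 * lett b T K j i x.2) •
      F (grl T K x.1 * grl T K x.2) (grl T K x.1) =
      ∑ s : T × Fin K, ∑ t : T × Fin K, (lett a T K i j s * lett b T K j i t) •
        F (grl T K s * grl T K t) (grl T K s) := Fintype.sum_prod_type _
  refine e1.trans ?_
  rw [h1, Fintype.sum_prod_type, ← Finset.sum_coe_sort T]
  apply Finset.sum_congr rfl
  intro x _
  rw [← Finset.sum_coe_sort T]

lemma exists_bound {n : ℕ} (A : Matrix (Fin n) (Fin n) (MonoidAlgebra ℤ Γ)) :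
    ∃ K : ℕ, ∀ i j g, (cf A i j g).natAbs ≤ K := by
  refine ⟨∑ i, ∑ j, ∑ g ∈ supp A, (cf A i j g).natAbs, ?_⟩
  intro i j g
  by_cases hg : cf A i j g = 0
  · rw [hg]; simp
  · have h1 : g ∈ supp A := mem_supp A i j g hg
    calc (cf A i j g).natAbs ≤ ∑ g ∈ supp A, (cf A i j g).natAbs :=
          Finset.single_le_sum (f := fun g => (cf A i j g).natAbs) (fun _ _ => Nat.zero_le _) h1
      _ ≤ ∑ j, ∑ g ∈ supp A, (cf A i j g).natAbs :=
          Finset.single_le_sum (f := fun j => ∑ g ∈ supp A, (cf A i j g).natAbs)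
            (fun _ _ => Nat.zero_le _) (Finset.mem_univ j)
      _ ≤ _ :=
          Finset.single_le_sum (f := fun i => ∑ j, ∑ g ∈ supp A, (cf A i j g).natAbs)
            (fun _ _ => Nat.zero_le _) (Finset.mem_univ i)

/-- a bound for the coefficients of a matrix and its inverse -/
noncomputable def Kb {n : ℕ} (A : (Matrix (Fin n) (Fin n) (MonoidAlgebra ℤ Γ))ˣ) : ℕ :=
  max (exists_bound A.val).choose (exists_bound (A⁻¹).val).choose

/-- the group element attached to an invertible matrix -/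
noncomputable def gamA {n : ℕ} (A : (Matrix (Fin n) (Fin n) (MonoidAlgebra ℤ Γ))ˣ) : Γ :=
  gam (grl (supp A.val ∪ supp (A⁻¹).val) (Kb A))
    (lett (cf A.val) (supp A.val ∪ supp (A⁻¹).val) (Kb A))
    (lett (cf (A⁻¹).val) (supp A.val ∪ supp (A⁻¹).val) (Kb A))

/-- **The Dennis trace of an invertible matrix modulo `p ^ (i+1)`**, cocycle form -/
theorem gamA_spec {n : ℕ} (A : (Matrix (Fin n) (Fin n) (MonoidAlgebra ℤ Γ))ˣ)
    {p : ℕ} (hp : p.Prime) (hp2 : p ≠ 2) (hroot : ∀ x y : Γ, x ^ p = y ^ p → x = y)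
    (hdiv : ∀ g : Γ, g ≠ 1 → ∃ k : ℕ, ∀ x, x ^ (p ^ k) ≠ g) (i : ℕ)
    {M : Type*} [AddCommGroup M] (hM : ∀ x : M, (p ^ (i + 1)) • x = 0)
    {F : Γ → Γ → M} (hF : IsCoc F) :
    ∃ m ∈ AddSubgroup.closure (Set.range fun g => F g g),
      DsumZ (cf A.val) (cf (A⁻¹).val) (supp A.val ∪ supp (A⁻¹).val) F =
        F 1 (gamA A) + p • m := by
  have ha : ∀ i j g, (cf A.val i j g).natAbs ≤ Kb A :=
    fun i j g => ((exists_bound A.val).choose_spec i j g).trans (le_max_left _ _)
  have hb : ∀ i j g, (cf (A⁻¹).val i j g).natAbs ≤ Kb A :=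
    fun i j g => ((exists_bound (A⁻¹).val).choose_spec i j g).trans (le_max_right _ _)
  have : Fact p.Prime := ⟨hp⟩
  have hodd : Odd p := hp.odd_of_ne_two hp2
  have h1 := trace_main (ip_of_invPair (invPair_units A) (Kb A) ha hb) (lett_pow hodd _ _ _)
    (lett_pow hodd _ _ _) hroot hdiv hM hF
  rw [Dsum_lett _ _ _ _ ha hb] at h1
  exact h1

end H219.Wh
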