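import Pool.Agent.H219.Wh.Final

/-!
# The determinant theorem
-/

set_option autoImplicit false
set_option linter.unusedSectionVars false

namespace H219.Wh

open Finset
open Pool.Agent.H23R2 (InvPair IsCoc DsumZ cf supp invPair_units pairing pairing_eq
  isCoc_of_hochschild mem_supp jacobi)

section aug

variable {S : Type*} [CommRing S] {Q : Type*} [CommGroup Q]

/-- the augmentation -/
noncomputable def aug : MonoidAlgebra S Q →+* S :=
  (MonoidAlgebra.lift S S Q (1 : Q →* S)).toRingHom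

lemma aug_apply (x : MonoidAlgebra S Q) : aug x = x.coeff.sum fun _ s => s := by
  show MonoidAlgebra.lift S S Q (1 : Q →* S) x = _
  rw [MonoidAlgebra.lift_apply]
  apply Finset.sum_congr rfl
  intro q _
  simp

lemma aug_single (q : Q) (s : S) : aug (MonoidAlgebra.single q s) = s := by
  rw [aug_apply, MonoidAlgebra.coeff_single]
  exact Finsupp.sum_single_index rfl

end aug

variable {Γ : Type*} [Group Γ]

open scoped Classical in
/-- `det ρ(A) = s det ρ(γ)` modulo `p` for a constant `s` -/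
theorem det_main {n : ℕ} (A : (Matrix (Fin n) (Fin n) (MonoidAlgebra ℤ Γ))ˣ) {p : ℕ}
    (hp : p.Prime) (hp2 : p ≠ 2) (hroot : ∀ x y : Γ, x ^ p = y ^ p → x = y)
    (hdiv : ∀ g : Γ, g ≠ 1 → ∃ k : ℕ, ∀ x, x ^ (p ^ k) ≠ g)
    {S : Type*} [CommRing S] {Q : Type*} [CommGroup Q] (hS : ∀ s : S, (p : S) * s = 0 → s = 0)
    (hQ : ∀ q : Q, q ≠ 1 → ∃ (i : ℕ) (χ : Q →* Multiplicative (ZMod (p ^ i))), χ q ≠ 1)
    {d : ℕ} (ρ : Γ →* Matrix (Fin d) (Fin d) (MonoidAlgebra S Q)) :
    ∃ (s : S) (w : MonoidAlgebra S Q), (block ρ A.val).det =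
      MonoidAlgebra.single 1 s * (ρ (gamA A)).det + (p : MonoidAlgebra S Q) * w := by
  have hM : ∀ i : ℕ, ∀ x : ((Q →* Multiplicative (Sq S (p ^ (i + 1)))) →
      MonoidAlgebra (Sq S (p ^ (i + 1))) Q), (p ^ (i + 1)) • x = 0 := by
    intro i x
    have hR0 : ((p ^ (i + 1) : ℕ) : MonoidAlgebra (Sq S (p ^ (i + 1))) Q) = 0 := by
      rw [MonoidAlgebra.natCast_def, Sq_zero, MonoidAlgebra.single_zero]
    funext μ
    rw [Pi.smul_apply, nsmul_eq_mul, hR0, zero_mul]
    rfl
  have h1 := u_const A hp hp2 hS hQ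
    (fun i F hF => gamA_spec A hp hp2 hroot hdiv i (hM i) hF) ρ
  set u := (block ρ A.val).det * (ρ (gamA A)⁻¹).det with hu
  obtain ⟨w, hw⟩ := exists_div (p := p) (u - MonoidAlgebra.single 1 (u.coeff 1)) (by
    intro q
    by_cases hq : q = 1
    · refine ⟨0, ?_⟩
      rw [hq, MonoidAlgebra.coeff_sub, Finsupp.sub_apply, MonoidAlgebra.coeff_single,
        Finsupp.single_eq_same]
      simp
    · obtain ⟨y, hy⟩ := h1 q hq
      refine ⟨y, ?_⟩
      rw [MonoidAlgebra.coeff_sub, Finsupp.sub_apply, MonoidAlgebra.coeff_single,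
        Finsupp.single_eq_of_ne hq, sub_zero]
      exact hy)
  have hab : (ρ (gamA A)⁻¹).det * (ρ (gamA A)).det = 1 := by
    rw [← Matrix.det_mul, ← map_mul, inv_mul_cancel, map_one, Matrix.det_one]
  refine ⟨u.coeff 1, w * (ρ (gamA A)).det, ?_⟩
  have h2 : (block ρ A.val).det = u * (ρ (gamA A)).det := by
    rw [hu, mul_assoc, hab, mul_one]
  rw [h2]
  have h3 : u = MonoidAlgebra.single 1 (u.coeff 1) + (p : MonoidAlgebra S Q) * w := by
    rw [← hw]; ring
  conv_lhs => rw [h3]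
  ring

end H219.Wh
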