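import Pool.Agent.H23R2.Word

/-!
# Rotation-free cyclic sequences of prime power length
-/

set_option autoImplicit false
set_option linter.unusedSectionVars false

namespace H219.Wh

open Finset Pool.Agent.H23R2
open scoped Classical

section Phase

variable {N : ℕ} {X : Type*}

/-- sequences with trivial rotation stabiliser -/
def Fr (g : ZMod N → X) : Prop := ∀ c : ZMod N, shift c g = g → c = 0

lemma Fr_shift {g : ZMod N → X} (h : Fr g) (c : ZMod N) : Fr (shift c g) := by
  intro d hd
  apply h d
  rw [shift_shift, add_comm, ← shift_shift] at hd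
  have := congrArg (shift (-c)) hd
  rwa [shift_neg_shift, shift_neg_shift] at this

lemma Fr_shift_iff {g : ZMod N → X} (c : ZMod N) : Fr (shift c g) ↔ Fr g := by
  constructor
  · intro h
    have := Fr_shift h (-c)
    rwa [shift_neg_shift] at this
  · intro h
    exact Fr_shift h c

lemma exists_phase' (X : Type*) :
    ∃ κ : (ZMod N → X) → ZMod N, ∀ g, Fr g → ∀ c, κ (shift c g) = κ g + c := by
  classical
  let r : Setoid (ZMod N → X) :=
    { r := fun g g' => ∃ c, g' = shift c g
      iseqv :=
        { refl := fun g => ⟨0, by simp⟩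
          symm := by
            rintro g g' ⟨c, rfl⟩
            exact ⟨-c, by rw [shift_neg_shift]⟩
          trans := by
            rintro g g' g'' ⟨c, rfl⟩ ⟨d, rfl⟩
            exact ⟨d + c, by rw [shift_shift]⟩ } }
  have hrep : ∀ g : ZMod N → X, ∃ c, g = shift c (Quotient.out (Quotient.mk r g)) := by
    intro g
    exact Quotient.exact (Quotient.out_eq (Quotient.mk r g))
  choose κ hκ using hrep
  refine ⟨κ, ?_⟩
  intro g hg c
  have hq : Quotient.mk r (shift c g) = Quotient.mk r g :=
    (Quotient.sound (s := r) ⟨c, rfl⟩).symm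
  have h1 := hκ (shift c g)
  rw [hq] at h1
  have h2 := hκ g
  set R := Quotient.out (Quotient.mk r g) with hR
  have hRNC : Fr R := by
    rw [h2] at hg
    exact (Fr_shift_iff _).1 hg
  have h3 : shift c g = shift (c + κ g) R := by
    conv_lhs => rw [h2]
    rw [shift_shift]
  have h4 : shift (κ (shift c g)) R = shift (c + κ g) R := by rw [← h1, h3]
  have h5 : shift (κ (shift c g) - (c + κ g)) R = R := by
    have := congrArg (shift (-(c + κ g))) h4
    rw [shift_shift, shift_neg_shift] at this
    rw [show κ (shift c g) - (c + κ g) = -(c + κ g) + κ (shift c g) by ring]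
    exact this
  have h6 := hRNC _ h5
  have : κ (shift c g) = c + κ g := sub_eq_zero.1 h6
  rw [this, add_comm]

end Phase

section Sums

variable {N : ℕ} [NeZero N] {X : Type*} [Fintype X] {M : Type*} [AddCommGroup M]

lemma sum_orbit' (P : (ZMod N → X) → Prop) (hP : ∀ o, P o → ∀ c, P (shift c o))
    (l : (ZMod N → X) → ZMod N) (hl : ∀ o, P o → ∀ c, l (shift c o) = l o + c)
    (G : (ZMod N → X) → M) :
    ∑ o with P o, G o = ∑ o with (P o ∧ l o = 0), ∑ c : ZMod N, G (shift c o) := by
  rw [Finset.sum_comm]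
  have h : ∀ c : ZMod N, ∑ o with (P o ∧ l o = 0), G (shift c o)
      = ∑ o with (P o ∧ l o = c), G o := by
    intro c
    refine Finset.sum_nbij' (fun o => shift c o) (fun o => shift (-c) o) ?_ ?_ ?_ ?_ ?_
    · intro o ho
      simp only [Finset.mem_filter, Finset.mem_univ, true_and] at ho ⊢
      exact ⟨hP o ho.1 c, by rw [hl o ho.1, ho.2, zero_add]⟩
    · intro o ho
      simp only [Finset.mem_filter, Finset.mem_univ, true_and] at ho ⊢
      exact ⟨hP o ho.1 _, by rw [hl o ho.1, ho.2]; ring⟩
    · intro o _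
      exact shift_neg_shift c o
    · intro o _
      exact shift_shift_neg c o
    · intro o _
      rfl
  simp_rw [h]
  rw [← Finset.sum_fiberwise (s := Finset.univ.filter P) (g := l)]
  apply Finset.sum_congr rfl
  intro c _
  apply Finset.sum_congr _ (fun _ _ => rfl)
  ext o
  simp

end Sums

section Psi

variable {Γ : Type*} [Group Γ] {N : ℕ} [NeZero N] {M : Type*} [AddCommGroup M]
  [Module (ZMod N) M]

/-- weighted sum of local values -/
def Psi' (F : Γ → Γ → M) (g : ZMod N → Γ) : M := ∑ k : ZMod N, k • phi F g k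

lemma Psi'_shift {F : Γ → Γ → M} (hF : IsCoc F) (hb : ∀ w, F w w = 0) (c : ZMod N)
    (g : ZMod N → Γ) : Psi' F (shift c g) = Psi' F g := by
  unfold Psi'
  simp_rw [phi_shift]
  have h : ∑ k : ZMod N, k • phi F g (k + c) = ∑ k : ZMod N, (k - c) • phi F g k := by
    refine Fintype.sum_equiv (Equiv.addRight c) _ _ ?_
    intro k
    simp
  rw [h]
  simp_rw [sub_smul]
  rw [Finset.sum_sub_distrib, ← Finset.smul_sum, sum_phi hF, hb, smul_zero, sub_zero]

lemma sum_coc' {F : Γ → Γ → M} (hF : IsCoc F) (a b : ZMod N → Γ) :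
    ∑ k : ZMod N, F (W (fun k => a k * b k) k) (a k) =
      Psi' F (fun k => a k * b k) - Psi' F (fun k => b k * a (k + 1)) := by
  set x : ZMod N → M := fun k => F (W (fun k => a k * b k) k) (a k) with hx
  have hstep : ∀ k, x (k + 1) = x k + phi F (fun k => b k * a (k + 1)) k
      - phi F (fun k => a k * b k) k := fun k => coc_step hF a b k
  have h1 : ∑ k : ZMod N, k • x (k + 1) = ∑ k : ZMod N, (k - 1) • x k := by
    refine Fintype.sum_equiv (Equiv.addRight 1) _ _ ?_
    intro k
    simp
  have h2 : ∑ k : ZMod N, x k = ∑ k : ZMod N, k • x k - ∑ k : ZMod N, k • x (k + 1) := by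
    rw [h1, ← Finset.sum_sub_distrib]
    apply Finset.sum_congr rfl
    intro k _
    rw [← sub_smul]
    simp
  rw [h2, ← Finset.sum_sub_distrib]
  unfold Psi'
  rw [← Finset.sum_sub_distrib]
  apply Finset.sum_congr rfl
  intro k _
  rw [hstep, ← smul_sub, ← smul_sub]
  congr 1
  abel

end Psi

section Period

variable {p i : ℕ} {X : Type*}

lemma shift_nsmul {N : ℕ} {c : ZMod N} {g : ZMod N → X} (h : shift c g = g) (m : ℕ) :
    shift (m • c) g = g := by
  induction m with
  | zero => simp
  | succ m ih => rw [succ_nsmul, ← shift_shift, h, ih]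

/-- a sequence of length `p ^ (i+1)` which is not rotation-free has period `p ^ i` -/
lemma not_Fr_iff (hp : p.Prime) (g : ZMod (p ^ (i + 1)) → X) :
    ¬ Fr g ↔ shift ((p ^ i : ℕ) : ZMod (p ^ (i + 1))) g = g := by
  have hN : 0 < p ^ (i + 1) := pow_pos hp.pos _
  haveI : NeZero (p ^ (i + 1)) := ⟨hN.ne'⟩
  constructor
  · intro h
    unfold Fr at h
    push Not at h
    obtain ⟨c, hc, hc0⟩ := h
    -- write `c = p ^ a * e`
    have hv : c.val ≠ 0 := by
      intro h0
      exact hc0 ((ZMod.val_eq_zero c).1 h0)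
    obtain ⟨a, e, he, hae⟩ := Nat.exists_eq_pow_mul_and_not_dvd hv p hp.ne_one
    have hcop : Nat.Coprime e (p ^ (i + 1)) :=
      ((Nat.Prime.coprime_iff_not_dvd hp).2 he).symm.pow_right _
    have hlt : c.val < p ^ (i + 1) := ZMod.val_lt c
    have ha : a ≤ i := by
      by_contra hcon
      push Not at hcon
      have h1 : p ^ (i + 1) ≤ p ^ a := Nat.pow_le_pow_right hp.pos hcon
      have he0 : 0 < e := by
        rcases Nat.eq_zero_or_pos e with h | h
        · exact absurd (h ▸ dvd_zero p) he
        · exact h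
      have h2 : p ^ a ≤ p ^ a * e := Nat.le_mul_of_pos_right _ he0
      omega
    obtain ⟨u, hu⟩ : ∃ u : ℕ, ((e * u : ℕ) : ZMod (p ^ (i + 1))) = 1 := by
      refine ⟨((e : ZMod (p ^ (i + 1)))⁻¹).val, ?_⟩
      rw [Nat.cast_mul, ZMod.natCast_zmod_val]
      exact ZMod.coe_mul_inv_eq_one e hcop
    have h2 := shift_nsmul hc (p ^ (i - a) * u)
    have h3 : (p ^ (i - a) * u) • c = ((p ^ i : ℕ) : ZMod (p ^ (i + 1))) := by
      have h4 : c = ((p ^ a * e : ℕ) : ZMod (p ^ (i + 1))) := by
        rw [← hae, ZMod.natCast_zmod_val]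
      rw [h4, nsmul_eq_mul]
      have h5 : p ^ i = p ^ (i - a) * p ^ a := by
        rw [← pow_add]
        congr 1
        omega
      rw [h5]
      push_cast at hu ⊢
      calc (p : ZMod (p ^ (i + 1))) ^ (i - a) * u * (p ^ a * e)
          = p ^ (i - a) * p ^ a * (e * u) := by ring
        _ = _ := by rw [hu, mul_one]
    rw [h3] at h2
    exact h2
  · intro h hF
    have h1 := hF _ h
    rw [ZMod.natCast_eq_zero_iff] at h1
    have h2 := Nat.le_of_dvd (pow_pos hp.pos _) h1
    have h3 : p ^ i < p ^ (i + 1) := Nat.pow_lt_pow_right hp.one_lt (by omega)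
    omega

end Period

end H219.Wh
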