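import Pool.Agent.H219.Wh.Phase

/-!
# Periodic cyclic sequences of length `p ^ (i+1)` and sequences of length `p ^ i`
-/

set_option autoImplicit false
set_option linter.unusedSectionVars false

namespace H219.Wh

open Finset Pool.Agent.H23R2
open scoped Classical

section

variable {p i : ℕ} [hp : Fact p.Prime] {X : Type*}

instance instNZ (p j : ℕ) [hp : Fact p.Prime] : NeZero (p ^ j) := ⟨(pow_pos hp.out.pos _).ne'⟩

/-- reduction -/
def red (p i : ℕ) : ZMod (p ^ (i + 1)) →+* ZMod (p ^ i) :=
  ZMod.castHom (pow_dvd_pow p (Nat.le_succ i)) (ZMod (p ^ i))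

lemma red_natCast (m : ℕ) : red p i (m : ZMod (p ^ (i + 1))) = (m : ZMod (p ^ i)) := map_natCast _ m

lemma red_surj : Function.Surjective (red p i) := by
  intro k
  exact ⟨(k.val : ZMod (p ^ (i + 1))), by rw [red_natCast, ZMod.natCast_zmod_val]⟩

lemma card_fibre (k : ZMod (p ^ i)) : #{x : ZMod (p ^ (i + 1)) | red p i x = k} = p := by
  have h1 : ∀ k' : ZMod (p ^ i), #{x : ZMod (p ^ (i + 1)) | red p i x = k'} =
      #{x : ZMod (p ^ (i + 1)) | red p i x = k} := by
    intro k'
    obtain ⟨c, hc⟩ := red_surj (p := p) (i := i) (k - k')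
    refine Finset.card_bij' (fun x _ => x + c) (fun x _ => x - c) ?_ ?_ ?_ ?_
    · intro x hx
      simp only [Finset.mem_filter, Finset.mem_univ, true_and] at hx ⊢
      rw [map_add, hx, hc]; ring
    · intro x hx
      simp only [Finset.mem_filter, Finset.mem_univ, true_and] at hx ⊢
      rw [map_sub, hx, hc]; ring
    · intro x _; ring
    · intro x _; ring
  have h2 : #(Finset.univ : Finset (ZMod (p ^ (i + 1)))) =
      ∑ k' : ZMod (p ^ i), #{x : ZMod (p ^ (i + 1)) | red p i x = k'} :=
    Finset.card_eq_sum_card_fiberwise (fun x _ => Finset.mem_coe.2 (Finset.mem_univ _))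
  simp_rw [h1] at h2
  rw [Finset.sum_const, Finset.card_univ, Finset.card_univ, ZMod.card, ZMod.card,
    smul_eq_mul] at h2
  exact (Nat.eq_of_mul_eq_mul_left (pow_pos hp.out.pos i) ((pow_succ p i).symm.trans h2)).symm

lemma prod_red {R : Type*} [CommMonoid R] (h : ZMod (p ^ i) → R) :
    ∏ k : ZMod (p ^ (i + 1)), h (red p i k) = (∏ k : ZMod (p ^ i), h k) ^ p := by
  rw [← Finset.prod_fiberwise (s := Finset.univ) (g := fun k : ZMod (p ^ (i + 1)) => red p i k),
    ← Finset.prod_pow]
  apply Finset.prod_congr rfl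
  intro k _
  rw [Finset.prod_congr rfl (g := fun _ => h k), Finset.prod_const, card_fibre]
  intro x hx
  rw [(Finset.mem_filter.1 hx).2]

/-- pull back -/
def pull (o : ZMod (p ^ i) → X) : ZMod (p ^ (i + 1)) → X := fun k => o (red p i k)

lemma pull_inj : Function.Injective (pull (p := p) (i := i) (X := X)) := by
  intro o o' h
  funext k
  obtain ⟨c, rfl⟩ := red_surj (p := p) (i := i) k
  exact congrFun h c

lemma shift_pull (o : ZMod (p ^ i) → X) :
    shift ((p ^ i : ℕ) : ZMod (p ^ (i + 1))) (pull o) = pull o := by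
  funext k
  simp only [shift_apply, pull]
  rw [map_add, red_natCast]
  congr 1
  simp

lemma exists_pull (o : ZMod (p ^ (i + 1)) → X)
    (h : shift ((p ^ i : ℕ) : ZMod (p ^ (i + 1))) o = o) : ∃ o', pull o' = o := by
  refine ⟨fun k => o (k.val : ZMod (p ^ (i + 1))), ?_⟩
  funext k
  simp only [pull]
  -- `red k` and `k` differ by a multiple of `p ^ i`
  have h1 : (red p i k).val = k.val % p ^ i := by
    have h2 : red p i k = ((k.val : ℕ) : ZMod (p ^ i)) := by
      conv_lhs => rw [← ZMod.natCast_zmod_val k]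
      rw [red_natCast]
    rw [h2, ZMod.val_natCast]
  rw [h1]
  have h3 := shift_nsmul h (k.val / p ^ i)
  have h4 := congrFun h3 ((k.val % p ^ i : ℕ) : ZMod (p ^ (i + 1)))
  rw [shift_apply] at h4
  rw [← h4]
  congr 1
  conv_rhs => rw [← ZMod.natCast_zmod_val k, ← Nat.mod_add_div k.val (p ^ i)]
  rw [nsmul_eq_mul]
  push_cast
  ring

lemma sum_periodic [Fintype X] {M : Type*} [AddCommMonoid M] (G : (ZMod (p ^ (i + 1)) → X) → M) :
    ∑ o with ¬ Fr o, G o = ∑ o' : ZMod (p ^ i) → X, G (pull o') := by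
  symm
  refine Finset.sum_bij (fun o' _ => pull o') ?_ ?_ ?_ ?_
  · intro o' _
    simp only [Finset.mem_filter, Finset.mem_univ, true_and]
    rw [not_Fr_iff hp.out]
    exact shift_pull o'
  · intro a _ b _ h
    exact pull_inj h
  · intro o ho
    simp only [Finset.mem_filter, Finset.mem_univ, true_and] at ho
    rw [not_Fr_iff hp.out] at ho
    obtain ⟨o', ho'⟩ := exists_pull o ho
    exact ⟨o', Finset.mem_univ _, ho'⟩
  · intro o' _; rfl

end

section

variable {Γ : Type*} [Group Γ] {N : ℕ}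

lemma pr_add (g : ZMod N → Γ) (k : ZMod N) (m l : ℕ) :
    pr g k (m + l) = pr g k m * pr g (k + m) l := by
  induction l with
  | zero => simp [pr]
  | succ l ih =>
    rw [← add_assoc, pr_succ, ih, pr_succ, mul_assoc]
    congr 3
    push_cast
    ring

lemma pr_mul_len (g : ZMod N → Γ) (r : ℕ) : pr g 0 (N * r) = (W g 0) ^ r := by
  induction r with
  | zero => simp [pr]
  | succ r ih =>
    rw [Nat.mul_succ, pr_add, ih, pow_succ]
    congr 1
    have : ((N * r : ℕ) : ZMod N) = 0 := by simp
    rw [this, zero_add]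
    rfl

variable {p i : ℕ} [hp : Fact p.Prime]

lemma pr_pull (g : ZMod (p ^ i) → Γ) (k : ZMod (p ^ (i + 1))) (m : ℕ) :
    pr (pull g) k m = pr g (red p i k) m := by
  induction m with
  | zero => rfl
  | succ m ih =>
    rw [pr_succ, pr_succ, ih]
    simp only [pull]
    rw [map_add, red_natCast]

lemma W_pull (g : ZMod (p ^ i) → Γ) : W (pull g) 0 = (W g 0) ^ p := by
  show pr (pull g) 0 (p ^ (i + 1)) = _
  rw [pr_pull, map_zero, pow_succ, pr_mul_len]

end

end H219.Wh
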